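import Mathlib
import Pool.Agent.Y519.AS.Defs

/-!
# Weakly closed 2-forms tamed by a field of endomorphisms: definitions

`E` is a Euclidean space, `M` a smooth manifold modelled on `E`.  `TwoForm`, `IsSmooth`,
`IsClosedForm`, `IsNondegenerate`, `IsSymplectic`, `Homotopic` are the definitions of
`Pool.Agent.Y519.AS.Defs`.
-/

set_option maxSynthPendingDepth 3

open scoped Manifold ContDiff Topology ENNReal
open MeasureTheory Set Metric
open Pool.Agent.Y519.AS (TwoForm)
open Pool.Agent.Helper831 (coordVec)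

namespace Pool.Agent.Y685.SY

variable {E : Type*} [NormedAddCommGroup E] [InnerProductSpace ℝ E] [FiniteDimensional ℝ E]
  {M : Type*} [TopologicalSpace M] [ChartedSpace E M]

/-- A field of linear forms on the tangent spaces (no regularity). -/
def Cov (E : Type*) [NormedAddCommGroup E] [NormedSpace ℝ E]
    (M : Type*) [TopologicalSpace M] [ChartedSpace E M] : Type _ :=
  ∀ x : M, TangentSpace 𝓘(ℝ, E) x →ₗ[ℝ] ℝ

/-- A field of endomorphisms of the tangent spaces (no regularity). -/
def EndField (E : Type*) [NormedAddCommGroup E] [NormedSpace ℝ E]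
    (M : Type*) [TopologicalSpace M] [ChartedSpace E M] : Type _ :=
  ∀ x : M, TangentSpace 𝓘(ℝ, E) x →ₗ[ℝ] TangentSpace 𝓘(ℝ, E) x

/-- derivative of the inverse chart at the point with coordinates `y`, `u ↦ coordVec e y u` -/
noncomputable def dS (e : OpenPartialHomeomorph M E) (y : E) :
    E →ₗ[ℝ] TangentSpace 𝓘(ℝ, E) (e.symm y) :=
  (mfderiv 𝓘(ℝ, E) 𝓘(ℝ, E) e.symm y).toLinearMap

/-- derivative of the chart at the point with coordinates `y` -/
noncomputable def dC (e : OpenPartialHomeomorph M E) (y : E) :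
    TangentSpace 𝓘(ℝ, E) (e.symm y) →ₗ[ℝ] E :=
  (mfderiv 𝓘(ℝ, E) 𝓘(ℝ, E) e (e.symm y)).toLinearMap

/-- the components of a 2-form in the chart `e` at the point with coordinates `y` -/
noncomputable def co (τ : TwoForm E M) (e : OpenPartialHomeomorph M E) (y : E) :
    E →L[ℝ] E →L[ℝ] ℝ :=
  LinearMap.toContinuousLinearMap
    { toFun := fun u => LinearMap.toContinuousLinearMap ((τ.form (e.symm y) (dS e y u)).comp (dS e y))
      map_add' := by
        intro a b
        rw [map_add, map_add, LinearMap.add_comp, map_add]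
      map_smul' := by
        intro a b
        rw [map_smul, map_smul, LinearMap.smul_comp, map_smul]
        rfl }

@[simp] theorem co_apply (τ : TwoForm E M) (e : OpenPartialHomeomorph M E) (y u w : E) :
    co τ e y u w = τ.coeff e y u w := rfl

/-- the components of a field of linear forms in the chart `e` -/
noncomputable def co1 (α : Cov E M) (e : OpenPartialHomeomorph M E) (y : E) : E →L[ℝ] ℝ :=
  LinearMap.toContinuousLinearMap ((α (e.symm y)).comp (dS e y))

theorem co1_apply (α : Cov E M) (e : OpenPartialHomeomorph M E) (y u : E) :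
    co1 α e y u = α (e.symm y) (coordVec e y u) := rfl

/-- the matrix of a field of endomorphisms in the chart `e` -/
noncomputable def mat (A : EndField E M) (e : OpenPartialHomeomorph M E) (y : E) : E →L[ℝ] E :=
  LinearMap.toContinuousLinearMap ((dC e y).comp ((A (e.symm y)).comp (dS e y)))

variable [MeasurableSpace E] [BorelSpace E]

/-- `θ - θ₀ = dα` in the sense of distributions, `α` continuous. -/
def WeakD (θ θ₀ : TwoForm E M) (α : Cov E M) : Prop :=
  ∀ e ∈ atlas E M, ContinuousOn (co1 α e) e.target ∧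
    ∀ φ : E → ℝ, ContDiff ℝ ∞ φ → HasCompactSupport φ → tsupport φ ⊆ e.target → ∀ a b : E,
      ∫ y, (co1 α e y b * fderiv ℝ φ y a - co1 α e y a * fderiv ℝ φ y b)
        = - ∫ y, (θ.coeff e y a b - θ₀.coeff e y a b) * φ y

/-- `θ(u, A u) ≥ c |u|²` almost everywhere, `c > 0` on compact subsets of the charts. -/
def Tames (A : EndField E M) (θ : TwoForm E M) : Prop :=
  ∀ e ∈ atlas E M, ∀ K ⊆ e.target, IsCompact K → ∃ c > 0, ∀ᵐ y ∂(volume.restrict K),
    ∀ u : E, c * ‖u‖ ^ 2 ≤ θ.coeff e y u (mat A e y u)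

/-- `θ` is locally integrable, `A` is measurable, and on compact subsets of the charts, uniformly as
`r → 0`: the integral of `|θ|` over a ball of radius `r` is `o(r ^ (m - 1))`, and for some
bounded endomorphism `Q`, depending on the ball, the integral of `|θ| |A - Q|` is `o(r ^ m)`. -/
def VanOsc (θ : TwoForm E M) (A : EndField E M) : Prop :=
  ∀ e ∈ atlas E M, LocallyIntegrableOn (co θ e) e.target ∧
    AEStronglyMeasurable (mat A e) (volume.restrict e.target) ∧
    ∀ K ⊆ e.target, IsCompact K → ∃ C : ℝ, ∀ η > 0, ∃ δ > 0, ∀ x ∈ K, ∀ r, 0 < r → r < δ →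
      ENNReal.ofReal r * ∫⁻ y in ball x r, ‖co θ e y‖ₑ
          ≤ ENNReal.ofReal (η * r ^ Module.finrank ℝ E) ∧
      ∃ Q : E →L[ℝ] E, ‖Q‖ ≤ C ∧
        ∫⁻ y in ball x r, ‖co θ e y‖ₑ * ‖mat A e y - Q‖ₑ
          ≤ ENNReal.ofReal (η * r ^ Module.finrank ℝ E)

/-- The field of linear forms is smooth: so are its components in the charts of the atlas. -/
def SmoothCov (β : Cov E M) : Prop :=
  ∀ e ∈ atlas E M, ∀ u : E, ContDiffOn ℝ ∞ (fun y => co1 β e y u) e.target

/-- `τ = θ₀ + dβ` (classical derivatives). -/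
def IsD (τ θ₀ : TwoForm E M) (β : Cov E M) : Prop :=
  ∀ e ∈ atlas E M, ∀ y ∈ e.target, ∀ a b : E,
    τ.coeff e y a b = θ₀.coeff e y a b
      + (fderiv ℝ (fun z => co1 β e z b) y a - fderiv ℝ (fun z => co1 β e z a) y b)

end Pool.Agent.Y685.SY
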