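import Mathlib
import Pool.Agent.Y685.SY.Defs

/-!
# Project SY: statements of the jobs

`θ` is a rough 2-form (in a chart: a function `E → E →L[ℝ] E →L[ℝ] ℝ`), `ρ` a bump function.
-/

set_option maxSynthPendingDepth 3

open scoped Manifold ContDiff Topology ENNReal
open MeasureTheory Set Metric
open Pool.Agent.Y519.AS (TwoForm)
open Pool.Agent.Helper831 (coordVec)

namespace Pool.Agent.Y685.SY

section Euclid

variable (E : Type) [NormedAddCommGroup E] [InnerProductSpace ℝ E] [FiniteDimensional ℝ E]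
  [MeasurableSpace E] [BorelSpace E]

/-- **MOLL.** Mollification of a weak primitive. -/
def S_MOLL : Prop :=
  ∀ (A : E → E →L[ℝ] ℝ) (γ : E → E →L[ℝ] E →L[ℝ] ℝ) (U K : Set E), IsOpen U → ContinuousOn A U →
    LocallyIntegrableOn γ U →
    (∀ φ : E → ℝ, ContDiff ℝ ∞ φ → HasCompactSupport φ → tsupport φ ⊆ U → ∀ a b : E,
      ∫ y, (A y b * fderiv ℝ φ y a - A y a * fderiv ℝ φ y b) = - ∫ y, γ y a b * φ y) →
    IsCompact K → K ⊆ U → ∀ ρ : ContDiffBump (0 : E),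
    ContDiff ℝ ∞ (fun x => ∫ y, ρ.normed volume (x - y) • K.indicator A y) ∧
    ∀ x, closedBall x ρ.rOut ⊆ K → ∀ a b : E,
      fderiv ℝ (fun x => ∫ y, ρ.normed volume (x - y) • K.indicator A y) x a b
        - fderiv ℝ (fun x => ∫ y, ρ.normed volume (x - y) • K.indicator A y) x b a
        = ∫ y, ρ.normed volume (x - y) * γ y a b

/-- **CONV.** Mollifications of continuous functions converge uniformly on compact sets. -/
def S_CONV : Prop :=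
  ∀ (V : Type) [NormedAddCommGroup V] [NormedSpace ℝ V] [CompleteSpace V]
    (A : E → V) (S K : Set E), IsCompact S → IsCompact K → ContinuousOn A K →
    ∀ r₀ > 0, cthickening r₀ S ⊆ K → ∀ η > 0, ∃ δ > 0, ∀ ρ : ContDiffBump (0 : E), ρ.rOut < δ →
      ∀ x ∈ S, ‖(∫ y, ρ.normed volume (x - y) • K.indicator A y) - A x‖ ≤ η

/-- **COMP.** Comparison of the mean oscillations in two charts (`f` is the coordinate change). -/
def S_COMP : Prop :=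
  ∀ (f g : E → E) (U V : Set E), IsOpen U → IsOpen V → ContDiffOn ℝ ∞ f U → ContDiffOn ℝ ∞ g V →
    MapsTo f U V → MapsTo g V U → (∀ x ∈ U, g (f x) = x) → (∀ y ∈ V, f (g y) = y) →
    ∀ (θ₁ θ₂ : E → E →L[ℝ] E →L[ℝ] ℝ) (A₁ A₂ : E → E →L[ℝ] E),
    AEStronglyMeasurable θ₁ (volume.restrict U) → AEStronglyMeasurable A₁ (volume.restrict U) →
    (∀ z ∈ U, ∀ u w, θ₁ z u w = θ₂ (f z) (fderiv ℝ f z u) (fderiv ℝ f z w)) →
    (∀ z ∈ U, ∀ u, fderiv ℝ f z (A₁ z u) = A₂ (f z) (fderiv ℝ f z u)) →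
    ∀ K ⊆ U, IsCompact K → ∃ L : ℝ, 1 ≤ L ∧ ∃ C : ℝ, 0 ≤ C ∧ ∀ L' ≥ L, ∃ δ > 0, ∀ r, 0 < r → r < δ →
      ∀ x ∈ K, ∀ Q : E →L[ℝ] E,
      ∫⁻ y in ball (f x) r, ‖θ₂ y‖ₑ * ‖A₂ y - (fderiv ℝ f x).comp (Q.comp (fderiv ℝ g (f x)))‖ₑ
        ≤ ENNReal.ofReal C * ((∫⁻ z in ball x (L' * r), ‖θ₁ z‖ₑ * ‖A₁ z - Q‖ₑ)
            + ENNReal.ofReal (‖Q‖ * (L' * r)) * ∫⁻ z in ball x (L' * r), ‖θ₁ z‖ₑ)

/-- **LOW.** The mollified 2-form is tamed by `Q`, if `A` is close to `Q` in the mean. -/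
def S_LOW : Prop :=
  ∃ C : ℝ, 0 < C ∧ ∀ (θ : E → E →L[ℝ] E →L[ℝ] ℝ) (A : E → E →L[ℝ] E) (Q : E →L[ℝ] E) (x : E)
    (ρ : ContDiffBump (0 : E)) (c κ : ℝ), ρ.rIn = ρ.rOut / 2 → 0 ≤ κ →
    IntegrableOn θ (ball x ρ.rOut) → AEStronglyMeasurable A (volume.restrict (ball x ρ.rOut)) →
    (∀ᵐ z ∂(volume.restrict (ball x ρ.rOut)), ∀ u : E, c * ‖u‖ ^ 2 ≤ θ z u (A z u)) →
    ∫⁻ z in ball x ρ.rOut, ‖θ z‖ₑ * ‖A z - Q‖ₑ
      ≤ ENNReal.ofReal (κ * ρ.rOut ^ Module.finrank ℝ E) →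
    ∀ v : E, (c - C * κ) * ‖v‖ ^ 2 ≤ ∫ z, ρ.normed volume (x - z) * θ z v (Q v)

end Euclid

section Manifold

variable (E : Type) [NormedAddCommGroup E] [InnerProductSpace ℝ E] [FiniteDimensional ℝ E]
  (M : Type) [TopologicalSpace M] [ChartedSpace E M] [IsManifold 𝓘(ℝ, E) ∞ M]

/-- the coordinate change from the chart `e` to the chart `e'` -/
def tr {E M : Type} [TopologicalSpace E] [TopologicalSpace M]
    (e e' : OpenPartialHomeomorph M E) (y : E) : E := e' (e.symm y)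

/-- the domain of the coordinate change -/
def trD {E M : Type} [TopologicalSpace E] [TopologicalSpace M]
    (e e' : OpenPartialHomeomorph M E) : Set E :=
  e.target ∩ e.symm ⁻¹' e'.source

/-- **TRANS.** Coordinate changes. -/
def S_TRANS : Prop :=
  ∀ e ∈ atlas E M, ∀ e' ∈ atlas E M,
    IsOpen (trD e e') ∧ ContDiffOn ℝ ∞ (tr e e') (trD e e') ∧
    MapsTo (tr e e') (trD e e') (trD e' e) ∧
    (∀ y ∈ trD e e', e'.symm (tr e e' y) = e.symm y ∧ tr e' e (tr e e' y) = y) ∧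
    (∀ (τ : TwoForm E M), ∀ y ∈ trD e e', ∀ u w : E, τ.coeff e y u w
      = τ.coeff e' (tr e e' y) (fderiv ℝ (tr e e') y u) (fderiv ℝ (tr e e') y w)) ∧
    (∀ (α : Cov E M), ∀ y ∈ trD e e', ∀ u : E, co1 α e y u
      = co1 α e' (tr e e' y) (fderiv ℝ (tr e e') y u)) ∧
    (∀ (A : EndField E M), ∀ y ∈ trD e e', ∀ u : E, fderiv ℝ (tr e e') y (mat A e y u)
      = mat A e' (tr e e' y) (fderiv ℝ (tr e e') y u))

/-- **EXT0.** Extension by zero of a function with compact support in a chart. -/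
def S_EXT0 : Prop :=
  ∀ [T2Space M], ∀ e₀ ∈ atlas E M, ∀ χ : E → ℝ, ContDiff ℝ ∞ χ → HasCompactSupport χ →
    tsupport χ ⊆ e₀.target → ∀ e ∈ atlas E M, ∀ y ∈ e.target,
    (e.symm y ∈ e₀.source → HasFDerivAt
      (fun z => e₀.source.indicator (fun p => χ (e₀ p)) (e.symm z))
      ((fderiv ℝ χ (tr e e₀ y)).comp (fderiv ℝ (tr e e₀) y)) y) ∧
    (e.symm y ∉ e₀.source → HasFDerivAt
      (fun z => e₀.source.indicator (fun p => χ (e₀ p)) (e.symm z)) (0 : E →L[ℝ] ℝ) y)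

/-- **EXT.** Extension by zero of a 1-form with compact support in a chart, and its derivative. -/
def S_EXT : Prop :=
  ∀ [T2Space M], ∀ e₀ ∈ atlas E M, ∀ B : E → E →L[ℝ] ℝ, ContDiff ℝ ∞ B → HasCompactSupport B →
    tsupport B ⊆ e₀.target → ∃ (β : Cov E M) (D : TwoForm E M), SmoothCov β ∧ D.IsSmooth ∧
      D.IsClosedForm ∧
      (∀ e ∈ atlas E M, ∀ y ∈ e.target, ∀ a b : E, D.coeff e y a b
        = fderiv ℝ (fun z => co1 β e z b) y a - fderiv ℝ (fun z => co1 β e z a) y b) ∧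
      (∀ y ∈ e₀.target, ∀ a b : E, D.coeff e₀ y a b = fderiv ℝ B y a b - fderiv ℝ B y b a) ∧
      (∀ e ∈ atlas E M, ∀ y ∈ e.target, e.symm y ∉ e₀.source → ∀ a b : E, D.coeff e y a b = 0)

/-- **PU.** Finite partition of unity, in coordinates. -/
def S_PU : Prop :=
  ∀ [CompactSpace M] [T2Space M], ∃ (N : ℕ) (e : Fin N → OpenPartialHomeomorph M E)
    (χ : Fin N → E → ℝ), (∀ i, e i ∈ atlas E M) ∧ (∀ i, ContDiff ℝ ∞ (χ i)) ∧
      (∀ i, HasCompactSupport (χ i)) ∧ (∀ i, tsupport (χ i) ⊆ (e i).target) ∧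
      (∀ i y, 0 ≤ χ i y) ∧
      ∀ p : M, ∑ i, (e i).source.indicator (fun p => χ i (e i p)) p = 1

end Manifold

end Pool.Agent.Y685.SY
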