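import Mathlib
import Pool.Agent.Y685.SY.Stm

/-!
# Project SY: auxiliary lemmas on mollifications and on charts
-/

set_option maxSynthPendingDepth 3
set_option linter.unusedSectionVars false

open scoped Manifold ContDiff Topology ENNReal
open MeasureTheory Set Metric Filter
open Pool.Agent.Y519.AS (TwoForm)
open Pool.Agent.Helper831 (coordVec)

namespace Pool.Agent.Y685.SY

section Euclid

variable {E : Type} [NormedAddCommGroup E] [InnerProductSpace ℝ E] [FiniteDimensional ℝ E]
  [MeasurableSpace E] [BorelSpace E]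

/-- the mollification -/
noncomputable def moll {V : Type} [NormedAddCommGroup V] [NormedSpace ℝ V]
    (ρ : ContDiffBump (0 : E)) (K : Set E) (A : E → V) (x : E) : V :=
  ∫ y, ρ.normed volume (x - y) • K.indicator A y

theorem rho_zero (ρ : ContDiffBump (0 : E)) {x y : E} (h : y ∉ ball x ρ.rOut) :
    ρ.normed volume (x - y) = 0 := by
  have h1 : x - y ∉ Function.support (ρ.normed volume) := by
    rw [ContDiffBump.support_normed_eq]
    simpa [mem_ball, dist_eq_norm, norm_sub_rev] using h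
  simpa using h1

theorem rho_bdd (ρ : ContDiffBump (0 : E)) : ∃ C : ℝ, ∀ y : E, ‖ρ.normed volume y‖ ≤ C := by
  have h := (ρ.hasCompactSupport_normed (μ := volume)).exists_bound_of_continuous
    (ρ.continuous_normed)
  exact h

theorem integrable_rho_smul {V : Type} [NormedAddCommGroup V] [NormedSpace ℝ V]
    (ρ : ContDiffBump (0 : E)) {F : E → V} (x : E) (hF : IntegrableOn F (ball x ρ.rOut)) :
    Integrable (fun y => ρ.normed volume (x - y) • F y) := by
  have h1 : IntegrableOn (fun y => ρ.normed volume (x - y) • F y) (ball x ρ.rOut) := by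
    obtain ⟨C, hC⟩ := rho_bdd ρ
    have := Integrable.bdd_smul (μ := volume.restrict (ball x ρ.rOut))
      (f := F) (φ := fun y => ρ.normed volume (x - y)) hF C
      ((ρ.continuous_normed.comp (continuous_const.sub continuous_id)).aestronglyMeasurable)
      (Filter.Eventually.of_forall fun y => hC _)
    exact this
  rw [← integrableOn_univ]
  have h2 := (integrableOn_iff_integrable_of_support_subset
    (f := fun y => ρ.normed volume (x - y) • F y) (s := ball x ρ.rOut) (μ := volume) ?_).1 h1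
  · exact h2.integrableOn
  · intro y hy
    by_contra hc
    exact hy (by simp [rho_zero ρ hc])

theorem moll_eq {V : Type} [NormedAddCommGroup V] [NormedSpace ℝ V]
    (ρ : ContDiffBump (0 : E)) {K : Set E} (A : E → V) {x : E} (hK : ball x ρ.rOut ⊆ K) :
    moll ρ K A x = ∫ y, ρ.normed volume (x - y) • A y := by
  unfold moll
  refine integral_congr_ae (Eventually.of_forall fun y => ?_)
  by_cases hy : y ∈ ball x ρ.rOut
  · simp [indicator_of_mem (hK hy)]
  · simp [rho_zero ρ hy]

theorem moll_apply2 (ρ : ContDiffBump (0 : E)) {K : Set E} (A : E → E →L[ℝ] E →L[ℝ] ℝ) {x : E}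
    (hK : ball x ρ.rOut ⊆ K) (hA : IntegrableOn A (ball x ρ.rOut)) (a b : E) :
    moll ρ K A x a b = ∫ y, ρ.normed volume (x - y) * A y a b := by
  rw [moll_eq ρ A hK]
  have h1 := integrable_rho_smul ρ x hA
  rw [ContinuousLinearMap.integral_apply h1 a]
  have h2 : Integrable (fun y => (ρ.normed volume (x - y) • A y) a) :=
    h1.apply_continuousLinearMap a
  rw [ContinuousLinearMap.integral_apply h2 b]
  rfl

theorem integrableOn_apply2 {A : E → E →L[ℝ] E →L[ℝ] ℝ} {S : Set E} (hA : IntegrableOn A S)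
    (a b : E) : IntegrableOn (fun y => A y a b) S :=
  (Integrable.apply_continuousLinearMap hA a).apply_continuousLinearMap b

end Euclid

section Manifold

variable {E : Type} [NormedAddCommGroup E] [InnerProductSpace ℝ E] [FiniteDimensional ℝ E]
  {M : Type} [TopologicalSpace M] [ChartedSpace E M] [IsManifold 𝓘(ℝ, E) ∞ M]

theorem continuousOn_co {τ : TwoForm E M} (hτ : τ.IsSmooth) {e : OpenPartialHomeomorph M E}
    (he : e ∈ atlas E M) : ContinuousOn (co τ e) e.target := by
  have h : ContDiffOn ℝ ∞ (co τ e) e.target := by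
    rw [contDiffOn_clm_apply]
    intro u
    rw [contDiffOn_clm_apply]
    intro w
    exact hτ e he u w
  exact h.continuousOn

/-- the part of `S₁` on which the coordinate change takes values in `S₂` -/
def ovl (e₁ e₂ : OpenPartialHomeomorph M E) (S₁ S₂ : Set E) : Set E :=
  {y | y ∈ S₁ ∧ y ∈ trD e₁ e₂ ∧ tr e₁ e₂ y ∈ S₂}

theorem isCompact_ovl [T2Space M] {e₁ e₂ : OpenPartialHomeomorph M E} {S₁ S₂ : Set E}
    (h1 : IsCompact S₁) (h1' : S₁ ⊆ e₁.target) (h2 : IsCompact S₂) (h2' : S₂ ⊆ e₂.target) :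
    IsCompact (ovl e₁ e₂ S₁ S₂) := by
  have c1 : IsCompact (e₁.symm '' S₁) := h1.image_of_continuousOn (e₁.continuousOn_symm.mono h1')
  have c2 : IsCompact (e₂.symm '' S₂) := h2.image_of_continuousOn (e₂.continuousOn_symm.mono h2')
  have c3 : IsCompact (e₁.symm '' S₁ ∩ e₂.symm '' S₂) := c1.inter c2
  have c4 : IsCompact (e₁ '' (e₁.symm '' S₁ ∩ e₂.symm '' S₂)) := by
    refine c3.image_of_continuousOn (e₁.continuousOn.mono ?_)
    rintro p ⟨⟨y, hy, rfl⟩, -⟩
    exact e₁.map_target (h1' hy)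
  convert c4 using 1
  ext y
  constructor
  · rintro ⟨hy1, hy2, hy3⟩
    refine ⟨e₁.symm y, ⟨⟨y, hy1, rfl⟩, ⟨tr e₁ e₂ y, hy3, ?_⟩⟩, e₁.right_inv (h1' hy1)⟩
    exact e₂.left_inv hy2.2
  · rintro ⟨p, ⟨⟨z, hz, rfl⟩, ⟨w, hw, hzw⟩⟩, rfl⟩
    have hz' := e₁.right_inv (h1' hz)
    have hsrc : e₁.symm z ∈ e₂.source := by
      rw [← hzw]; exact e₂.map_target (h2' hw)
    refine ⟨?_, ⟨?_, ?_⟩, ?_⟩
    · rw [hz']; exact hz
    · rw [hz']; exact h1' hz
    · show e₁.symm (e₁ (e₁.symm z)) ∈ e₂.source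
      rw [hz']; exact hsrc
    · show e₂ (e₁.symm (e₁ (e₁.symm z))) ∈ S₂
      rw [hz', ← hzw, e₂.right_inv (h2' hw)]
      exact hw

end Manifold

end Pool.Agent.Y685.SY
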