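import Mathlib
import Pool.Agent.Y685.SY.Prep

/-!
# Project SY: the exterior derivative of a mollified, cut off primitive (error part)
-/

set_option maxSynthPendingDepth 3
set_option linter.unusedSectionVars false

open scoped Manifold ContDiff Topology ENNReal
open MeasureTheory Set Metric Filter
open Pool.Agent.Y519.AS (TwoForm)
open Pool.Agent.Helper831 (coordVec)

namespace Pool.Agent.Y685.SY

variable {E : Type} [NormedAddCommGroup E] [InnerProductSpace ℝ E] [FiniteDimensional ℝ E]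
  {M : Type} [TopologicalSpace M] [ChartedSpace E M] [IsManifold 𝓘(ℝ, E) ∞ M]

/-- a cut-off function of the chart `e₂`, extended by zero, in the chart `e₁` -/
noncomputable def tt (e₁ e₂ : OpenPartialHomeomorph M E) (χ : E → ℝ) (y : E) : ℝ :=
  e₂.source.indicator (fun p => χ (e₂ p)) (e₁.symm y)

theorem exists_bound_fderiv_ovl [T2Space M] (hT : S_TRANS E M) {e₁ e₂ : OpenPartialHomeomorph M E}
    (he₁ : e₁ ∈ atlas E M) (he₂ : e₂ ∈ atlas E M) {S₁ S₂ : Set E}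
    (h1 : IsCompact S₁) (h1' : S₁ ⊆ e₁.target) (h2 : IsCompact S₂) (h2' : S₂ ⊆ e₂.target) :
    ∃ Φ : ℝ, 0 ≤ Φ ∧ ∀ y ∈ ovl e₁ e₂ S₁ S₂, ‖fderiv ℝ (tr e₁ e₂) y‖ ≤ Φ := by
  obtain ⟨ho, hs, -⟩ := hT e₁ he₁ e₂ he₂
  have hc : ContinuousOn (fderiv ℝ (tr e₁ e₂)) (trD e₁ e₂) :=
    hs.continuousOn_fderiv_of_isOpen ho (by simp)
  obtain ⟨Φ, hΦ⟩ := (isCompact_ovl (e₁ := e₁) (e₂ := e₂) h1 h1' h2 h2').exists_bound_of_continuousOn
    (hc.mono fun y hy => hy.2.1)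
  exact ⟨max Φ 0, le_max_right _ _, fun y hy => (hΦ y hy).trans (le_max_left _ _)⟩

variable [MeasurableSpace E] [BorelSpace E]

theorem pairA [T2Space M] (hM : S_MOLL E) (hC : S_CONV E) (hT : S_TRANS E M) (h0 : S_EXT0 E M)
    {e₁ e₂ : OpenPartialHomeomorph M E} (he₁ : e₁ ∈ atlas E M) (he₂ : e₂ ∈ atlas E M)
    {χ : E → ℝ} (χs : ContDiff ℝ ∞ χ) (χc : HasCompactSupport χ) (χt : tsupport χ ⊆ e₂.target)
    {S₁ : Set E} (S₁c : IsCompact S₁) (S₁t : S₁ ⊆ e₁.target)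
    {K : Set E} (Kc : IsCompact K) (Kt : K ⊆ e₂.target) {r₀ : ℝ} (hr₀ : 0 < r₀)
    (hK : cthickening r₀ (tsupport χ) ⊆ K)
    {θ θ₀ : TwoForm E M} {α : Cov E M} (h₀ : θ₀.IsSmooth) (hW : WeakD θ θ₀ α)
    (hL : LocallyIntegrableOn (co θ e₂) e₂.target) {ε : ℝ} (hε : 0 < ε) :
    ∀ᶠ r in 𝓝[>] (0 : ℝ), ∀ ρ : ContDiffBump (0 : E), ρ.rOut = r → ∀ D : TwoForm E M,
      (∀ y ∈ e₂.target, ∀ a b : E, D.coeff e₂ y a b
        = fderiv ℝ (fun y => χ y • moll ρ K (co1 α e₂) y) y a b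
          - fderiv ℝ (fun y => χ y • moll ρ K (co1 α e₂) y) y b a) →
      (∀ e ∈ atlas E M, ∀ y ∈ e.target, e.symm y ∉ e₂.source → ∀ a b : E, D.coeff e y a b = 0) →
      ∀ y ∈ S₁, ∀ u w : E,
        |D.coeff e₁ y u w
          - (fderiv ℝ (tt e₁ e₂ χ) y u * co1 α e₁ y w - fderiv ℝ (tt e₁ e₂ χ) y w * co1 α e₁ y u)
          - (tt e₁ e₂ χ y * (∫ z, ρ.normed volume (tr e₁ e₂ y - z)
                * θ.coeff e₂ z (fderiv ℝ (tr e₁ e₂) y u) (fderiv ℝ (tr e₁ e₂) y w))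
              - tt e₁ e₂ χ y * θ₀.coeff e₁ y u w)| ≤ ε * ‖u‖ * ‖w‖ := by
  obtain ⟨ho, hs, hm, hinv, hco, hco1, -⟩ := hT e₁ he₁ e₂ he₂
  obtain ⟨Φ, hΦ0, hΦ⟩ := exists_bound_fderiv_ovl hT he₁ he₂ S₁c S₁t χc χt
  obtain ⟨X₁, hX₁⟩ := χc.exists_bound_of_continuous χs.continuous
  have hdχ : Continuous (fderiv ℝ χ) := χs.continuous_fderiv (by simp)
  obtain ⟨X₂, hX₂⟩ := (χc.fderiv (𝕜 := ℝ)).exists_bound_of_continuous hdχ
  set X : ℝ := max (max X₁ X₂) 0 with hXdef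
  have hX0 : 0 ≤ X := le_max_right _ _
  have hXa : ∀ y, |χ y| ≤ X := fun y => (hX₁ y).trans ((le_max_left _ _).trans (le_max_left _ _))
  have hXb : ∀ y, ‖fderiv ℝ χ y‖ ≤ X :=
    fun y => (hX₂ y).trans ((le_max_right _ _).trans (le_max_left _ _))
  set η : ℝ := ε / (3 * X * Φ ^ 2 + 1) with hηdef
  have hden : 0 < 3 * X * Φ ^ 2 + 1 := by positivity
  have hη : 0 < η := div_pos hε hden
  have hηε : 3 * X * Φ ^ 2 * η ≤ ε := by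
    rw [hηdef, mul_div_assoc']
    rw [div_le_iff₀ hden]
    nlinarith [mul_nonneg (mul_nonneg hX0 (sq_nonneg Φ)) hε.le]
  have hαc : ContinuousOn (co1 α e₂) e₂.target := (hW e₂ he₂).1
  have hθ₀c : ContinuousOn (co θ₀ e₂) e₂.target := continuousOn_co h₀ he₂
  obtain ⟨δ₁, hδ₁, H₁⟩ := hC (E →L[ℝ] ℝ) (co1 α e₂) (tsupport χ) K χc Kc (hαc.mono Kt) r₀ hr₀ hK η hη
  obtain ⟨δ₂, hδ₂, H₂⟩ := hC (E →L[ℝ] E →L[ℝ] ℝ) (co θ₀ e₂) (tsupport χ) K χc Kc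
    (hθ₀c.mono Kt) r₀ hr₀ hK η hη
  have hLγ : LocallyIntegrableOn (fun y => co θ e₂ y - co θ₀ e₂ y) e₂.target :=
    hL.sub (hθ₀c.locallyIntegrableOn e₂.open_target.measurableSet)
  have hpos : 0 < min (min δ₁ δ₂) r₀ := lt_min (lt_min hδ₁ hδ₂) hr₀
  filter_upwards [Ioo_mem_nhdsGT hpos] with r hr ρ hρ D hD1 hD2 y hy u w
  have hr1 : ρ.rOut < δ₁ := by
    rw [hρ]; exact hr.2.trans_le ((min_le_left _ _).trans (min_le_left _ _))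
  have hr2 : ρ.rOut < δ₂ := by
    rw [hρ]; exact hr.2.trans_le ((min_le_left _ _).trans (min_le_right _ _))
  have hr3 : ρ.rOut < r₀ := by
    rw [hρ]; exact hr.2.trans_le (min_le_right _ _)
  have hyt : y ∈ e₁.target := S₁t hy
  have hE := h0 e₂ he₂ χ χs χc χt e₁ he₁ y hyt
  by_cases hsrc : e₁.symm y ∈ e₂.source
  swap
  · have e1 : tt e₁ e₂ χ y = 0 := indicator_of_notMem hsrc _
    have e2 : fderiv ℝ (tt e₁ e₂ χ) y = 0 := (hE.2 hsrc).fderiv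
    have e3 : D.coeff e₁ y u w = 0 := hD2 e₁ he₁ y hyt hsrc u w
    rw [e1, e2, e3]
    simp
    positivity
  have hyD : y ∈ trD e₁ e₂ := ⟨hyt, hsrc⟩
  set y₂ := tr e₁ e₂ y with hy₂
  set F := fderiv ℝ (tr e₁ e₂) y with hF
  have hy₂t : y₂ ∈ e₂.target := (hm hyD).1
  have e1 : tt e₁ e₂ χ y = χ y₂ := indicator_of_mem hsrc _
  have e2 : fderiv ℝ (tt e₁ e₂ χ) y = (fderiv ℝ χ y₂).comp F := (hE.1 hsrc).fderiv
  have e3 : D.coeff e₁ y u w = D.coeff e₂ y₂ (F u) (F w) := hco D y hyD u w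
  obtain ⟨hAs, hAd⟩ := hM (co1 α e₂) (fun y => co θ e₂ y - co θ₀ e₂ y) e₂.target K e₂.open_target
    hαc hLγ ((hW e₂ he₂).2) Kc Kt ρ
  have hAdiff : DifferentiableAt ℝ (moll ρ K (co1 α e₂)) y₂ :=
    (hAs.differentiable (by simp)) y₂
  have hχdiff : DifferentiableAt ℝ χ y₂ := (χs.differentiable (by simp)) y₂
  have e4 : ∀ a b : E, fderiv ℝ (fun y => χ y • moll ρ K (co1 α e₂) y) y₂ a b
      = χ y₂ * fderiv ℝ (moll ρ K (co1 α e₂)) y₂ a b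
        + fderiv ℝ χ y₂ a * moll ρ K (co1 α e₂) y₂ b := by
    intro a b
    rw [fderiv_fun_smul hχdiff hAdiff]
    simp
  rw [e3, hD1 y₂ hy₂t, e4, e4, e1, e2]
  by_cases hS : y₂ ∈ tsupport χ
  swap
  · have z1 : χ y₂ = 0 := image_eq_zero_of_notMem_tsupport hS
    have z2 : fderiv ℝ χ y₂ = 0 := by
      have := (tsupport_fderiv_subset ℝ (f := χ))
      exact image_eq_zero_of_notMem_tsupport fun h => hS (this h)
    rw [z1, z2]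
    simp
    positivity
  have hyo : y ∈ ovl e₁ e₂ S₁ (tsupport χ) := ⟨hy, hyD, hS⟩
  have hball : closedBall y₂ ρ.rOut ⊆ K := by
    refine Subset.trans ?_ hK
    intro z hz
    exact mem_cthickening_of_dist_le z y₂ r₀ _ hS ((mem_closedBall.1 hz).trans hr3.le)
  have hball' : ball y₂ ρ.rOut ⊆ K := ball_subset_closedBall.trans hball
  have e5 := hAd y₂ hball (F u) (F w)
  have h1 := H₁ ρ hr1 y₂ hS
  have h2 := H₂ ρ hr2 y₂ hS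
  have iθ : IntegrableOn (co θ e₂) (ball y₂ ρ.rOut) :=
    (hL.integrableOn_compact_subset (hball.trans Kt) (isCompact_closedBall _ _)).mono_set
      ball_subset_closedBall
  have iθ₀ : IntegrableOn (co θ₀ e₂) (ball y₂ ρ.rOut) :=
    ((hθ₀c.mono (hball.trans Kt)).integrableOn_compact (isCompact_closedBall _ _)).mono_set
      ball_subset_closedBall
  have e6 : (∫ z, ρ.normed volume (y₂ - z) * (co θ e₂ z - co θ₀ e₂ z) (F u) (F w))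
      = (∫ z, ρ.normed volume (y₂ - z) * θ.coeff e₂ z (F u) (F w))
        - moll ρ K (co θ₀ e₂) y₂ (F u) (F w) := by
    rw [moll_apply2 ρ _ hball' iθ₀, ← integral_sub]
    · refine integral_congr_ae (Eventually.of_forall fun z => ?_)
      simp [mul_sub]
    · exact integrable_rho_smul ρ y₂ (integrableOn_apply2 iθ (F u) (F w))
    · exact integrable_rho_smul ρ y₂ (integrableOn_apply2 iθ₀ (F u) (F w))
  have e7 : θ₀.coeff e₁ y u w = co θ₀ e₂ y₂ (F u) (F w) := by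
    rw [hco θ₀ y hyD u w]; rfl
  have e8 : co1 α e₁ y w = co1 α e₂ y₂ (F w) := hco1 α y hyD w
  have e9 : co1 α e₁ y u = co1 α e₂ y₂ (F u) := hco1 α y hyD u
  have e5' : fderiv ℝ (moll ρ K (co1 α e₂)) y₂ (F u) (F w)
      - fderiv ℝ (moll ρ K (co1 α e₂)) y₂ (F w) (F u)
      = (∫ z, ρ.normed volume (y₂ - z) * θ.coeff e₂ z (F u) (F w))
        - moll ρ K (co θ₀ e₂) y₂ (F u) (F w) := by
    rw [← e6]; exact e5
  set I := ∫ z, ρ.normed volume (y₂ - z) * θ.coeff e₂ z (F u) (F w) with hI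
  have key : χ y₂ * fderiv ℝ (moll ρ K (co1 α e₂)) y₂ (F u) (F w)
        + fderiv ℝ χ y₂ (F u) * moll ρ K (co1 α e₂) y₂ (F w)
      - (χ y₂ * fderiv ℝ (moll ρ K (co1 α e₂)) y₂ (F w) (F u)
        + fderiv ℝ χ y₂ (F w) * moll ρ K (co1 α e₂) y₂ (F u))
      - (((fderiv ℝ χ y₂).comp F) u * co1 α e₁ y w - ((fderiv ℝ χ y₂).comp F) w * co1 α e₁ y u)
      - (χ y₂ * I - χ y₂ * θ₀.coeff e₁ y u w)
      = fderiv ℝ χ y₂ (F u) * (moll ρ K (co1 α e₂) y₂ - co1 α e₂ y₂) (F w)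
        - fderiv ℝ χ y₂ (F w) * (moll ρ K (co1 α e₂) y₂ - co1 α e₂ y₂) (F u)
        - χ y₂ * (moll ρ K (co θ₀ e₂) y₂ - co θ₀ e₂ y₂) (F u) (F w) := by
    rw [e7, e8, e9]
    simp only [ContinuousLinearMap.comp_apply, sub_apply]
    linear_combination (χ y₂) * e5'
  rw [key]
  have hFu : ‖F u‖ ≤ Φ * ‖u‖ := (F.le_opNorm u).trans (by gcongr; exact hΦ y hyo)
  have hFw : ‖F w‖ ≤ Φ * ‖w‖ := (F.le_opNorm w).trans (by gcongr; exact hΦ y hyo)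
  have b1 : ∀ a b : E, |fderiv ℝ χ y₂ a * (moll ρ K (co1 α e₂) y₂ - co1 α e₂ y₂) b|
      ≤ X * η * ‖a‖ * ‖b‖ := by
    intro a b
    rw [abs_mul]
    have p1 : |fderiv ℝ χ y₂ a| ≤ X * ‖a‖ :=
      ((fderiv ℝ χ y₂).le_opNorm a).trans (by gcongr; exact hXb _)
    have p2 : |(moll ρ K (co1 α e₂) y₂ - co1 α e₂ y₂) b| ≤ η * ‖b‖ :=
      ((moll ρ K (co1 α e₂) y₂ - co1 α e₂ y₂).le_opNorm b).trans (by gcongr; exact h1)
    calc |fderiv ℝ χ y₂ a| * |(moll ρ K (co1 α e₂) y₂ - co1 α e₂ y₂) b|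
        ≤ (X * ‖a‖) * (η * ‖b‖) := by gcongr
      _ = X * η * ‖a‖ * ‖b‖ := by ring
  have b2 : |χ y₂ * (moll ρ K (co θ₀ e₂) y₂ - co θ₀ e₂ y₂) (F u) (F w)|
      ≤ X * η * ‖F u‖ * ‖F w‖ := by
    rw [abs_mul]
    have p2 : |(moll ρ K (co θ₀ e₂) y₂ - co θ₀ e₂ y₂) (F u) (F w)| ≤ η * ‖F u‖ * ‖F w‖ :=
      ((moll ρ K (co θ₀ e₂) y₂ - co θ₀ e₂ y₂).le_opNorm₂ (F u) (F w)).trans (by gcongr; exact h2)
    calc |χ y₂| * |(moll ρ K (co θ₀ e₂) y₂ - co θ₀ e₂ y₂) (F u) (F w)|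
        ≤ X * (η * ‖F u‖ * ‖F w‖) := by gcongr; exact hXa _
      _ = X * η * ‖F u‖ * ‖F w‖ := by ring
  have hprod : ‖F u‖ * ‖F w‖ ≤ Φ ^ 2 * (‖u‖ * ‖w‖) := by
    calc ‖F u‖ * ‖F w‖ ≤ (Φ * ‖u‖) * (Φ * ‖w‖) := by gcongr
      _ = Φ ^ 2 * (‖u‖ * ‖w‖) := by ring
  have hsum : |fderiv ℝ χ y₂ (F u) * (moll ρ K (co1 α e₂) y₂ - co1 α e₂ y₂) (F w)
        - fderiv ℝ χ y₂ (F w) * (moll ρ K (co1 α e₂) y₂ - co1 α e₂ y₂) (F u)
        - χ y₂ * (moll ρ K (co θ₀ e₂) y₂ - co θ₀ e₂ y₂) (F u) (F w)|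
      ≤ 3 * (X * η) * (‖F u‖ * ‖F w‖) := by
    have q2 := b1 (F u) (F w)
    have q3 := b1 (F w) (F u)
    have q4 := abs_sub (fderiv ℝ χ y₂ (F u) * (moll ρ K (co1 α e₂) y₂ - co1 α e₂ y₂) (F w)
        - fderiv ℝ χ y₂ (F w) * (moll ρ K (co1 α e₂) y₂ - co1 α e₂ y₂) (F u))
        (χ y₂ * (moll ρ K (co θ₀ e₂) y₂ - co θ₀ e₂ y₂) (F u) (F w))
    have q5 := abs_sub (fderiv ℝ χ y₂ (F u) * (moll ρ K (co1 α e₂) y₂ - co1 α e₂ y₂) (F w))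
        (fderiv ℝ χ y₂ (F w) * (moll ρ K (co1 α e₂) y₂ - co1 α e₂ y₂) (F u))
    nlinarith [q2, q3, q4, q5, b2]
  refine hsum.trans ?_
  calc 3 * (X * η) * (‖F u‖ * ‖F w‖) ≤ 3 * (X * η) * (Φ ^ 2 * (‖u‖ * ‖w‖)) := by gcongr
    _ = (3 * X * Φ ^ 2 * η) * (‖u‖ * ‖w‖) := by ring
    _ ≤ ε * (‖u‖ * ‖w‖) := by gcongr
    _ = ε * ‖u‖ * ‖w‖ := by ring

end Pool.Agent.Y685.SY
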