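import Mathlib
import Pool.Agent.Y685.SY.Prep

/-!
# Project SY: positivity of the mollified form (in another chart)
-/

set_option maxSynthPendingDepth 3
set_option linter.unusedSectionVars false

open scoped Manifold ContDiff Topology ENNReal
open MeasureTheory Set Metric Filter
open Pool.Agent.Y519.AS (TwoForm)
open Pool.Agent.Helper831 (coordVec)

namespace Pool.Agent.Y685.SY

variable {E : Type} [NormedAddCommGroup E] [InnerProductSpace ℝ E] [FiniteDimensional ℝ E]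
  {M : Type} [TopologicalSpace M] [ChartedSpace E M] [IsManifold 𝓘(ℝ, E) ∞ M]

theorem fderiv_tr_inv (hT : S_TRANS E M) {e₁ e₂ : OpenPartialHomeomorph M E}
    (he₁ : e₁ ∈ atlas E M) (he₂ : e₂ ∈ atlas E M) {y : E} (hy : y ∈ trD e₁ e₂) (u : E) :
    fderiv ℝ (tr e₂ e₁) (tr e₁ e₂ y) (fderiv ℝ (tr e₁ e₂) y u) = u := by
  obtain ⟨ho, hs, hm, hinv, -⟩ := hT e₁ he₁ e₂ he₂
  obtain ⟨ho', hs', -⟩ := hT e₂ he₂ e₁ he₁
  have d1 : DifferentiableAt ℝ (tr e₁ e₂) y :=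
    (hs.contDiffAt (ho.mem_nhds hy)).differentiableAt (by simp)
  have d2 : DifferentiableAt ℝ (tr e₂ e₁) (tr e₁ e₂ y) :=
    (hs'.contDiffAt (ho'.mem_nhds (hm hy))).differentiableAt (by simp)
  have h1 : HasFDerivAt (fun z => tr e₂ e₁ (tr e₁ e₂ z))
      ((fderiv ℝ (tr e₂ e₁) (tr e₁ e₂ y)).comp (fderiv ℝ (tr e₁ e₂) y)) y :=
    d2.hasFDerivAt.comp y d1.hasFDerivAt
  have h2 : HasFDerivAt (fun z => tr e₂ e₁ (tr e₁ e₂ z)) (ContinuousLinearMap.id ℝ E) y := by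
    refine (hasFDerivAt_id y).congr_of_eventuallyEq ?_
    filter_upwards [ho.mem_nhds hy] with z hz
    exact (hinv z hz).2
  have h3 := h1.unique h2
  have h4 := congrArg (fun L : E →L[ℝ] E => L u) h3
  simpa using h4

variable [MeasurableSpace E] [BorelSpace E]

theorem pairB [T2Space M] (hCO : S_COMP E) (hLO : S_LOW E) (hT : S_TRANS E M)
    {e₁ e₂ : OpenPartialHomeomorph M E} (he₁ : e₁ ∈ atlas E M) (he₂ : e₂ ∈ atlas E M)
    {S₁ S₂ : Set E} (S₁c : IsCompact S₁) (S₁t : S₁ ⊆ e₁.target)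
    (S₂c : IsCompact S₂) (S₂t : S₂ ⊆ e₂.target)
    {K : Set E} (Kc : IsCompact K) (Kt : K ⊆ e₂.target) {r₀ : ℝ} (hr₀ : 0 < r₀)
    (hK : cthickening r₀ S₂ ⊆ K)
    {θ : TwoForm E M} {A : EndField E M}
    (hL₁ : LocallyIntegrableOn (co θ e₁) e₁.target) (hL₂ : LocallyIntegrableOn (co θ e₂) e₂.target)
    (hA₁ : AEStronglyMeasurable (mat A e₁) (volume.restrict e₁.target))
    (hA₂ : AEStronglyMeasurable (mat A e₂) (volume.restrict e₂.target))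
    {c : ℝ} (hc : 0 < c)
    (hcK : ∀ᵐ y ∂(volume.restrict K), ∀ u : E, c * ‖u‖ ^ 2 ≤ θ.coeff e₂ y u (mat A e₂ y u))
    {B : ℝ} (hB : 0 ≤ B) :
    ∃ L : ℝ, 1 ≤ L ∧ ∀ L' ≥ L, ∃ η₀ > 0, ∀ η, 0 < η → η ≤ η₀ → ∀ᶠ r in 𝓝[>] (0 : ℝ),
      ∀ ρ : ContDiffBump (0 : E), ρ.rOut = r → ρ.rIn = r / 2 →
      ∀ y ∈ ovl e₁ e₂ S₁ S₂, ∀ Q : E →L[ℝ] E, ‖Q‖ ≤ B →
        ENNReal.ofReal (L' * r) * ∫⁻ z in ball y (L' * r), ‖co θ e₁ z‖ₑ
          ≤ ENNReal.ofReal (η * (L' * r) ^ Module.finrank ℝ E) →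
        ∫⁻ z in ball y (L' * r), ‖co θ e₁ z‖ₑ * ‖mat A e₁ z - Q‖ₑ
          ≤ ENNReal.ofReal (η * (L' * r) ^ Module.finrank ℝ E) →
        ∀ u : E, c / 2 * ‖fderiv ℝ (tr e₁ e₂) y u‖ ^ 2
          ≤ ∫ z, ρ.normed volume (tr e₁ e₂ y - z)
                * θ.coeff e₂ z (fderiv ℝ (tr e₁ e₂) y u) (fderiv ℝ (tr e₁ e₂) y (Q u)) := by
  obtain ⟨ho, hs, hm, hinv, hco, hco1, hmat⟩ := hT e₁ he₁ e₂ he₂
  obtain ⟨ho', hs', hm', hinv', -⟩ := hT e₂ he₂ e₁ he₁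
  obtain ⟨CL, hCL, HL⟩ := hLO
  have mθ₁ : AEStronglyMeasurable (co θ e₁) (volume.restrict (trD e₁ e₂)) :=
    hL₁.aestronglyMeasurable.mono_set inter_subset_left
  have mA₁ : AEStronglyMeasurable (mat A e₁) (volume.restrict (trD e₁ e₂)) :=
    hA₁.mono_set inter_subset_left
  obtain ⟨L, hL1, C, hC0, HC⟩ := hCO (tr e₁ e₂) (tr e₂ e₁) (trD e₁ e₂) (trD e₂ e₁) ho ho' hs hs'
    hm hm' (fun x hx => (hinv x hx).2) (fun x hx => (hinv' x hx).2) (co θ e₁) (co θ e₂)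
    (mat A e₁) (mat A e₂) mθ₁ mA₁ (fun z hz u w => hco θ z hz u w) (fun z hz u => hmat A z hz u)
    (ovl e₁ e₂ S₁ S₂) (fun y hy => hy.2.1) (isCompact_ovl S₁c S₁t S₂c S₂t)
  refine ⟨L, hL1, fun L' hL' => ?_⟩
  have hL'0 : 0 < L' := lt_of_lt_of_le one_pos (hL1.trans hL')
  obtain ⟨δ, hδ, HD⟩ := HC L' hL'
  set m := Module.finrank ℝ E with hmdef
  set P : ℝ := CL * (C * (1 + B) * L' ^ m) with hP
  have hP0 : 0 ≤ P := by positivity
  refine ⟨c / (2 * (P + 1)), by positivity, fun η hη hηle => ?_⟩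
  have hηP : P * η ≤ c / 2 := by
    have h1 : η * (2 * (P + 1)) ≤ c := by
      rwa [le_div_iff₀ (by positivity)] at hηle
    nlinarith [mul_nonneg hP0 hη.le]
  have hpos : 0 < min δ r₀ := lt_min hδ hr₀
  filter_upwards [Ioo_mem_nhdsGT hpos] with r hr ρ hρ hρ' y hy Q hQ h1 h2 u
  have hr0 : 0 < r := hr.1
  have hrδ : r < δ := hr.2.trans_le (min_le_left _ _)
  have hrr : r < r₀ := hr.2.trans_le (min_le_right _ _)
  have hyD : y ∈ trD e₁ e₂ := hy.2.1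
  set y₂ := tr e₁ e₂ y with hy₂
  set F := fderiv ℝ (tr e₁ e₂) y with hF
  set G := fderiv ℝ (tr e₂ e₁) y₂ with hG
  have hball : ball y₂ r ⊆ K := by
    refine Subset.trans ?_ hK
    intro z hz
    exact mem_cthickening_of_dist_le z y₂ r₀ _ hy.2.2 ((mem_ball.1 hz).le.trans hrr.le)
  have hballt : ball y₂ r ⊆ e₂.target := hball.trans Kt
  have h3 := HD r hr0 hrδ y hy Q
  have h4 : ∫⁻ z in ball y₂ r, ‖co θ e₂ z‖ₑ * ‖mat A e₂ z - F.comp (Q.comp G)‖ₑ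
      ≤ ENNReal.ofReal ((C * (1 + B) * η * L' ^ m) * ρ.rOut ^ Module.finrank ℝ E) := by
    refine h3.trans ?_
    set X : ℝ := η * (L' * r) ^ m with hX
    have hX0 : 0 ≤ X := by positivity
    have h5 : ENNReal.ofReal (‖Q‖ * (L' * r)) * ∫⁻ z in ball y (L' * r), ‖co θ e₁ z‖ₑ
        ≤ ENNReal.ofReal (B * X) := by
      rw [ENNReal.ofReal_mul (norm_nonneg _), mul_assoc]
      calc ENNReal.ofReal ‖Q‖ * (ENNReal.ofReal (L' * r) * ∫⁻ z in ball y (L' * r), ‖co θ e₁ z‖ₑ)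
          ≤ ENNReal.ofReal B * ENNReal.ofReal X := by
            gcongr
        _ = ENNReal.ofReal (B * X) := (ENNReal.ofReal_mul hB).symm
    calc ENNReal.ofReal C * ((∫⁻ z in ball y (L' * r), ‖co θ e₁ z‖ₑ * ‖mat A e₁ z - Q‖ₑ)
            + ENNReal.ofReal (‖Q‖ * (L' * r)) * ∫⁻ z in ball y (L' * r), ‖co θ e₁ z‖ₑ)
        ≤ ENNReal.ofReal C * (ENNReal.ofReal X + ENNReal.ofReal (B * X)) := by gcongr
      _ = ENNReal.ofReal (C * (X + B * X)) := by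
          rw [ENNReal.ofReal_mul hC0, ENNReal.ofReal_add hX0 (by positivity)]
      _ = ENNReal.ofReal ((C * (1 + B) * η * L' ^ m) * ρ.rOut ^ Module.finrank ℝ E) := by
          congr 1
          rw [hρ, hX, mul_pow]
          ring
  have h5 := HL (co θ e₂) (mat A e₂) (F.comp (Q.comp G)) y₂ ρ c (C * (1 + B) * η * L' ^ m)
    (by rw [hρ', hρ]) (by positivity)
    (by
      rw [hρ]
      have hcb : closedBall y₂ r ⊆ K := by
        refine Subset.trans ?_ hK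
        intro z hz
        exact mem_cthickening_of_dist_le z y₂ r₀ _ hy.2.2 ((mem_closedBall.1 hz).trans hrr.le)
      exact (hL₂.integrableOn_compact_subset (hcb.trans Kt) (isCompact_closedBall _ _)).mono_set
        ball_subset_closedBall)
    (by rw [hρ]; exact hA₂.mono_set hballt)
    (by rw [hρ]; exact ae_restrict_of_ae_restrict_of_subset hball hcK)
    (by rw [hρ] at h4 ⊢; exact h4) (F u)
  have h6 : (F.comp (Q.comp G)) (F u) = F (Q u) := by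
    show F (Q (G (F u))) = F (Q u)
    rw [hG, hF, fderiv_tr_inv hT he₁ he₂ hyD u]
  rw [h6] at h5
  refine le_trans ?_ h5
  have h7 : c / 2 ≤ c - CL * (C * (1 + B) * η * L' ^ m) := by
    have : CL * (C * (1 + B) * η * L' ^ m) = P * η := by rw [hP]; ring
    rw [this]; linarith
  gcongr

end Pool.Agent.Y685.SY
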