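import Mathlib
import Pool.Agent.Y685.SY.Stm

/-!
# Families of 2-forms which are tame in the mean, Sobolev families
-/

set_option maxSynthPendingDepth 3

open scoped Manifold ContDiff Topology ENNReal
open MeasureTheory Set Metric Filter
open Pool.Agent.Y519.AS (TwoForm)
open Pool.Agent.Helper831 (coordVec)

namespace Pool.Agent.Y685.SY

variable {E : Type} [NormedAddCommGroup E] [InnerProductSpace ℝ E] [FiniteDimensional ℝ E]
  {M : Type} [TopologicalSpace M] [ChartedSpace E M]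

/-- The defect of positivity `sup_{|u| = 1} (c - b (u, Q u))₊` of the bilinear form `b`. -/
noncomputable def defect (c : ℝ) (b : E →L[ℝ] E →L[ℝ] ℝ) (Q : E →L[ℝ] E) : ℝ≥0∞ :=
  ⨆ (u : E) (_ : ‖u‖ = 1), ENNReal.ofReal (c - b u (Q u))

variable [MeasurableSpace E] [BorelSpace E] {ι : Type}

/-- The 2-forms `θ t` are uniformly tame in the mean: they are locally integrable, and on compact
subsets of the charts, uniformly in `t` as `r → 0`, the integral of `|θ t|` over a ball of radius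
`r` is `o(r ^ (m - 1))`, and for some endomorphism `Q`, `|Q| ≤ C`, depending on the ball and on `t`,
the integral of the defect of positivity of `θ t (·, Q ·)` is `o(r ^ m)`. -/
def MeanTame (θ : ι → TwoForm E M) : Prop :=
  ∀ e ∈ atlas E M, (∀ t, LocallyIntegrableOn (co (θ t) e) e.target) ∧
    ∀ K ⊆ e.target, IsCompact K → ∃ C : ℝ, ∃ c > 0, ∀ η > 0, ∃ δ > 0,
      ∀ t, ∀ x ∈ K, ∀ r, 0 < r → r < δ →
      ENNReal.ofReal r * ∫⁻ y in ball x r, ‖co (θ t) e y‖ₑ
          ≤ ENNReal.ofReal (η * r ^ Module.finrank ℝ E) ∧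
      ∃ Q : E →L[ℝ] E, ‖Q‖ ≤ C ∧
        ∫⁻ y in ball x r, defect c (co (θ t) e y) Q
          ≤ ENNReal.ofReal (η * r ^ Module.finrank ℝ E)

/-- `t ↦ θ t` is continuous with values in the locally integrable 2-forms. -/
def ContL1 [TopologicalSpace ι] (θ : ι → TwoForm E M) : Prop :=
  ∀ e ∈ atlas E M, ∀ K ⊆ e.target, IsCompact K → ∀ t₀,
    Tendsto (fun t => ∫⁻ y in K, ‖co (θ t) e y - co (θ t₀) e y‖ₑ) (𝓝 t₀) (𝓝 0)

/-- `g` is measurable and locally in `L^m` on `U`, `m = dim E`. -/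
def LocLm {V : Type} [NormedAddCommGroup V] (U : Set E) (g : E → V) : Prop :=
  AEStronglyMeasurable g (volume.restrict U) ∧
    ∀ K ⊆ U, IsCompact K → ∫⁻ y in K, ‖g y‖ₑ ^ Module.finrank ℝ E < ⊤

/-- `G` is the weak derivative of `g` on `U`. -/
def WeakGrad {V : Type} [NormedAddCommGroup V] [NormedSpace ℝ V] (U : Set E) (g : E → V)
    (G : E → E →L[ℝ] V) : Prop :=
  ∀ φ : E → ℝ, ContDiff ℝ ∞ φ → HasCompactSupport φ → tsupport φ ⊆ U → ∀ a : E,
    ∫ y, fderiv ℝ φ y a • g y = - ∫ y, φ y • G y a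

/-- `t ↦ g t` is continuous with values in `L^m_loc (U)`, `m = dim E`. -/
def ContLm {V : Type} [NormedAddCommGroup V] [TopologicalSpace ι] (U : Set E) (g : ι → E → V) :
    Prop :=
  ∀ K ⊆ U, IsCompact K → ∀ t₀,
    Tendsto (fun t => ∫⁻ y in K, ‖g t y - g t₀ y‖ₑ ^ Module.finrank ℝ E) (𝓝 t₀) (𝓝 0)

/-- `t ↦ θ t` is continuous with values in the Sobolev space `W^{1,m}_loc`, `m = dim M`: in the
charts the components and their weak first derivatives `G` are locally in `L^m` and depend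
continuously on `t` as such. -/
def SobolevFamily [TopologicalSpace ι] (θ : ι → TwoForm E M) : Prop :=
  ∀ e ∈ atlas E M, ∃ G : ι → E → E →L[ℝ] (E →L[ℝ] E →L[ℝ] ℝ),
    (∀ t, LocLm e.target (co (θ t) e) ∧ LocLm e.target (G t) ∧
      WeakGrad e.target (co (θ t) e) (G t)) ∧
    ContLm e.target (fun t => co (θ t) e) ∧ ContLm e.target G

/-- The 2-forms `θ t` are uniformly nondegenerate: `|θ t (u, ·)| ≥ c |u|` almost everywhere, with
`c > 0` independent of `t`, on compact subsets of the charts. -/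
def UnifNondeg (θ : ι → TwoForm E M) : Prop :=
  ∀ e ∈ atlas E M, ∀ K ⊆ e.target, IsCompact K → ∃ c > 0, ∀ t, ∀ᵐ y ∂(volume.restrict K),
    ∀ u : E, c * ‖u‖ ≤ ‖co (θ t) e y u‖

/-- the nondegenerate alternating bilinear forms -/
def NDA (E : Type) [NormedAddCommGroup E] [NormedSpace ℝ E] : Set (E →L[ℝ] E →L[ℝ] ℝ) :=
  {b | (∀ u, b u u = 0) ∧ ∀ u, (∀ w, b u w = 0) → u = 0}

end Pool.Agent.Y685.SY
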