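import Mathlib
import Pool.Agent.Y685.SY.Defs2

/-!
# Project SY: statements of the second series of jobs
-/

set_option maxSynthPendingDepth 3

open scoped Manifold ContDiff Topology ENNReal
open MeasureTheory Set Metric Filter
open Pool.Agent.Y519.AS (TwoForm)
open Pool.Agent.Helper831 (coordVec)

namespace Pool.Agent.Y685.SY

section Euclid

variable (E : Type) [NormedAddCommGroup E] [InnerProductSpace ℝ E] [FiniteDimensional ℝ E]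
  [MeasurableSpace E] [BorelSpace E]

/-- **LOW2.** The mollified 2-form is tamed by `Q`, if the defect is small in the mean. -/
def S_LOW2 : Prop :=
  ∃ C : ℝ, 0 < C ∧ ∀ (θ : E → E →L[ℝ] E →L[ℝ] ℝ) (Q : E →L[ℝ] E) (x : E)
    (ρ : ContDiffBump (0 : E)) (c κ : ℝ), ρ.rIn = ρ.rOut / 2 → 0 ≤ κ →
    IntegrableOn θ (ball x ρ.rOut) →
    ∫⁻ z in ball x ρ.rOut, defect c (θ z) Q
      ≤ ENNReal.ofReal (κ * ρ.rOut ^ Module.finrank ℝ E) →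
    ∀ v : E, (c - C * κ) * ‖v‖ ^ 2 ≤ ∫ z, ρ.normed volume (x - z) * θ z v (Q v)

/-- **COMP2.** Comparison of the mean defects in two charts (`f` is the coordinate change). -/
def S_COMP2 : Prop :=
  ∀ (f g : E → E) (U V : Set E), IsOpen U → IsOpen V → ContDiffOn ℝ ∞ f U → ContDiffOn ℝ ∞ g V →
    MapsTo f U V → MapsTo g V U → (∀ x ∈ U, g (f x) = x) → (∀ y ∈ V, f (g y) = y) →
    ∀ K ⊆ U, IsCompact K → ∃ L : ℝ, 1 ≤ L ∧ ∃ C : ℝ, 1 ≤ C ∧ ∀ L' ≥ L, ∃ δ > 0,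
      ∀ (θ₁ θ₂ : E → E →L[ℝ] E →L[ℝ] ℝ), AEStronglyMeasurable θ₁ (volume.restrict U) →
      (∀ z ∈ U, ∀ u w, θ₁ z u w = θ₂ (f z) (fderiv ℝ f z u) (fderiv ℝ f z w)) →
      ∀ r, 0 < r → r < δ → ∀ x ∈ K, ∀ Q : E →L[ℝ] E, ∀ c ≥ 0,
      ∫⁻ y in ball (f x) r,
          defect (c / C) (θ₂ y) ((fderiv ℝ f x).comp (Q.comp (fderiv ℝ g (f x))))
        ≤ ENNReal.ofReal C * ((∫⁻ z in ball x (L' * r), defect c (θ₁ z) Q)
            + ENNReal.ofReal (‖Q‖ * (L' * r)) * ∫⁻ z in ball x (L' * r), ‖θ₁ z‖ₑ)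

/-- **HOLD.** Hoelder's inequality on balls. -/
def S_HOLD : Prop :=
  0 < Module.finrank ℝ E → ∃ C : ℝ, 0 < C ∧ ∀ (V : Type) [NormedAddCommGroup V] (G : E → V)
    (x : E) (r ε : ℝ), 0 < r → 0 ≤ ε → AEStronglyMeasurable G (volume.restrict (ball x r)) →
    ∫⁻ y in ball x r, ‖G y‖ₑ ^ Module.finrank ℝ E
      ≤ ENNReal.ofReal (ε ^ Module.finrank ℝ E) →
    ENNReal.ofReal r * ∫⁻ y in ball x r, ‖G y‖ₑ
      ≤ ENNReal.ofReal (C * ε * r ^ Module.finrank ℝ E)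

/-- **LMLI.** `L^m` and `L^1`, `m = dim E`. -/
def S_LMLI : Prop :=
  0 < Module.finrank ℝ E →
  (∀ (V : Type) [NormedAddCommGroup V] (G : E → V) (U : Set E), IsOpen U →
    AEStronglyMeasurable G (volume.restrict U) →
    (∀ K ⊆ U, IsCompact K → ∫⁻ y in K, ‖G y‖ₑ ^ Module.finrank ℝ E < ⊤) →
    LocallyIntegrableOn G U) ∧
  (∀ (ι : Type) [TopologicalSpace ι] (V : Type) [NormedAddCommGroup V] (G : ι → E → V)
    (K : Set E), IsCompact K → (∀ t, AEStronglyMeasurable (G t) (volume.restrict K)) → ∀ t₀,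
    Tendsto (fun t => ∫⁻ y in K, ‖G t y - G t₀ y‖ₑ ^ Module.finrank ℝ E) (𝓝 t₀) (𝓝 0) →
    Tendsto (fun t => ∫⁻ y in K, ‖G t y - G t₀ y‖ₑ) (𝓝 t₀) (𝓝 0))

/-- **POIN.** Poincare's inequality for weakly differentiable functions. -/
def S_POIN : Prop :=
  ∃ C : ℝ, 0 < C ∧ ∀ (V : Type) [NormedAddCommGroup V] [NormedSpace ℝ V] [FiniteDimensional ℝ V]
    (Θ : E → V) (G : E → E →L[ℝ] V) (U : Set E), IsOpen U →
    LocallyIntegrableOn Θ U → LocallyIntegrableOn G U →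
    (∀ φ : E → ℝ, ContDiff ℝ ∞ φ → HasCompactSupport φ → tsupport φ ⊆ U → ∀ a : E,
      ∫ y, fderiv ℝ φ y a • Θ y = - ∫ y, φ y • G y a) →
    ∀ (x : E) (r : ℝ), 0 < r → closedBall x (2 * r) ⊆ U →
      ∃ B : V, ∫⁻ y in ball x r, ‖Θ y - B‖ₑ
        ≤ ENNReal.ofReal (C * r) * ∫⁻ y in ball x (2 * r), ‖G y‖ₑ

/-- **GOODB.** A good endomorphism, if the oscillation is small. -/
def S_GOODB : Prop :=
  ∀ (Θ : E → E →L[ℝ] E →L[ℝ] ℝ) (B₀ : E →L[ℝ] E →L[ℝ] ℝ) (x : E) (r c κ : ℝ), 0 < r → 0 < c →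
    0 ≤ κ → AEStronglyMeasurable Θ (volume.restrict (ball x r)) → (∀ y u, Θ y u u = 0) →
    (∀ᵐ y ∂(volume.restrict (ball x r)), ∀ u : E, c * ‖u‖ ≤ ‖Θ y u‖) →
    ∫⁻ y in ball x r, ‖Θ y - B₀‖ₑ ≤ ENNReal.ofReal (κ * r ^ Module.finrank ℝ E) →
    ∃ Q : E →L[ℝ] E, ‖Q‖ ≤ 1 / c ∧
      ∫⁻ y in ball x r, defect 1 (Θ y) Q ≤ ENNReal.ofReal (2 * κ / c * r ^ Module.finrank ℝ E)

/-- **CTR.** For a continuous form, `Q` tames the form at the centre of the ball. -/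
def S_CTR : Prop :=
  ∀ (τ : E → E →L[ℝ] E →L[ℝ] ℝ) (U K : Set E), IsOpen U → ContinuousOn τ U → K ⊆ U →
    IsCompact K → ∀ (C c : ℝ), 0 < c → ∃ η > 0, ∃ δ > 0, ∀ x ∈ K, ∀ r, 0 < r → r < δ →
      ∀ Q : E →L[ℝ] E, ‖Q‖ ≤ C →
      ∫⁻ y in ball x r, defect c (τ y) Q ≤ ENNReal.ofReal (η * r ^ Module.finrank ℝ E) →
      ∀ u : E, u ≠ 0 → 0 < τ x u (Q u)

/-- **ORI.** The orientation. -/
def S_ORI : Prop :=
  ∀ (Θ τ : E → E →L[ℝ] E →L[ℝ] ℝ) (U K : Set E), IsOpen U → ContinuousOn τ U →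
    (∀ y ∈ U, τ y ∈ NDA E) → (∀ᵐ y ∂(volume.restrict U), JoinedIn (NDA E) (Θ y) (τ y)) →
    K ⊆ U → IsCompact K → ∀ c > 0, ∃ η > 0, ∃ δ > 0, ∀ x ∈ K, ∀ r, 0 < r → r < δ →
      ∀ Q : E →L[ℝ] E,
      ∫⁻ y in ball x r, defect c (Θ y) Q ≤ ENNReal.ofReal (η * r ^ Module.finrank ℝ E) →
      ∃ b ∈ NDA E, (∀ u : E, u ≠ 0 → 0 < b u (Q u)) ∧ JoinedIn (NDA E) b (τ x)

/-- **EQUI.** Uniform absolute continuity of the integrals for a compact family. -/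
def S_EQUI : Prop :=
  0 < Module.finrank ℝ E → ∀ (ι : Type) [TopologicalSpace ι] [CompactSpace ι]
    (V : Type) [NormedAddCommGroup V] (G : ι → E → V) (U : Set E), IsOpen U →
    (∀ t, AEStronglyMeasurable (G t) (volume.restrict U)) →
    (∀ t, ∀ K ⊆ U, IsCompact K → ∫⁻ y in K, ‖G t y‖ₑ ^ Module.finrank ℝ E < ⊤) →
    (∀ K ⊆ U, IsCompact K → ∀ t₀,
      Tendsto (fun t => ∫⁻ y in K, ‖G t y - G t₀ y‖ₑ ^ Module.finrank ℝ E) (𝓝 t₀) (𝓝 0)) →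
    ∀ K ⊆ U, IsCompact K → ∀ ε > 0, ∃ δ > 0, ∀ t, ∀ x ∈ K, closedBall x δ ⊆ U ∧
      ∫⁻ y in ball x δ, ‖G t y‖ₑ ^ Module.finrank ℝ E ≤ ENNReal.ofReal ε

end Euclid

section Manifold

variable (E : Type) [NormedAddCommGroup E] [InnerProductSpace ℝ E] [FiniteDimensional ℝ E]
  (M : Type) [TopologicalSpace M] [ChartedSpace E M] [IsManifold 𝓘(ℝ, E) ∞ M]

/-- **HOM.** Homotopies of nondegenerate 2-forms. -/
def S_HOM : Prop :=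
  (∀ τ₀ : TwoForm E M, (∀ p : M, ∃ e ∈ atlas E M, ∃ y ∈ e.target, e.symm y = p ∧
      ∃ Q : E →L[ℝ] E, ∀ u : E, u ≠ 0 → 0 < τ₀.coeff e y u (Q u)) → τ₀.IsNondegenerate) ∧
  (∀ τ₀ τ₁ : TwoForm E M, (∀ e ∈ atlas E M, ContinuousOn (co τ₀ e) e.target) →
    (∀ e ∈ atlas E M, ContinuousOn (co τ₁ e) e.target) →
    (∀ p : M, ∃ e ∈ atlas E M, ∃ y ∈ e.target, e.symm y = p ∧
      ∃ Q : E →L[ℝ] E, ∀ u : E, u ≠ 0 →
        0 < τ₀.coeff e y u (Q u) ∧ 0 < τ₁.coeff e y u (Q u)) → TwoForm.Homotopic τ₀ τ₁) ∧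
  (∀ D : unitInterval → TwoForm E M, (∀ t, (D t).IsNondegenerate) →
    (∀ e ∈ atlas E M, ∀ u w : E, ContinuousOn
      (fun q : unitInterval × E => (D q.1).coeff e q.2 u w) (univ ×ˢ e.target)) →
    TwoForm.Homotopic (D 0) (D 1)) ∧
  (∀ τ₀ τ₁ τ₂ : TwoForm E M, TwoForm.Homotopic τ₀ τ₁ → TwoForm.Homotopic τ₁ τ₂ →
    TwoForm.Homotopic τ₀ τ₂)

variable [MeasurableSpace E] [BorelSpace E]

/-- **SMEAR.** The cut off mollified forms of a continuous family. -/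
def S_SMEAR : Prop :=
  ∀ [T2Space M], ∀ e₀ ∈ atlas E M, ∀ χ : E → ℝ, ContDiff ℝ ∞ χ → HasCompactSupport χ →
    tsupport χ ⊆ e₀.target → ∀ K ⊆ e₀.target, IsCompact K → ∀ (ρ : ContDiffBump (0 : E))
    (ι : Type) [TopologicalSpace ι] (θ : ι → TwoForm E M),
    (∀ t, IntegrableOn (co (θ t) e₀) K) →
    (∀ t₀, Tendsto (fun t => ∫⁻ y in K, ‖co (θ t) e₀ y - co (θ t₀) e₀ y‖ₑ) (𝓝 t₀) (𝓝 0)) →
    ∃ D : ι → TwoForm E M,
      (∀ e ∈ atlas E M, ∀ y ∈ e.target, e.symm y ∈ e₀.source → ∀ t, ∀ u w : E,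
        (D t).coeff e y u w = χ (tr e e₀ y) *
          (∫ z, ρ.normed volume (tr e e₀ y - z) • K.indicator (co (θ t) e₀) z)
            (fderiv ℝ (tr e e₀) y u) (fderiv ℝ (tr e e₀) y w)) ∧
      (∀ e ∈ atlas E M, ∀ y ∈ e.target, e.symm y ∉ e₀.source → ∀ t, ∀ u w : E,
        (D t).coeff e y u w = 0) ∧
      (∀ e ∈ atlas E M, ∀ u w : E, ContinuousOn
        (fun q : ι × E => (D q.1).coeff e q.2 u w) (univ ×ˢ e.target))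

end Manifold

end Pool.Agent.Y685.SY
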