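import Mathlib
import Pool.Agent.Y685.SY.Stm2

/-!
# Project SY: families of symplectic forms (definitions and statements of the third series)
-/

set_option maxSynthPendingDepth 3

open scoped Manifold ContDiff Topology ENNReal
open MeasureTheory Set Metric Filter
open Pool.Agent.Y519.AS (TwoForm)
open Pool.Agent.Helper831 (coordVec)

namespace Pool.Agent.Y685.SY

section

variable {E : Type} [NormedAddCommGroup E] [InnerProductSpace ℝ E] [FiniteDimensional ℝ E]
  {M : Type} [TopologicalSpace M] [ChartedSpace E M]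
  {ι : Type} [TopologicalSpace ι] [CompactSpace ι]

/-- `t ↦ β t` is continuous with values in the smooth fields of linear forms (`C^∞` topology): in
the charts the components are smooth maps with values in the Banach space `C(ι, E*)`. -/
def SmoothFam1 (β : ι → Cov E M) : Prop :=
  ∀ e ∈ atlas E M, ∃ b : E → C(ι, E →L[ℝ] ℝ), ContDiffOn ℝ ∞ b e.target ∧
    ∀ y ∈ e.target, ∀ t, b y t = co1 (β t) e y

/-- `t ↦ σ t` is continuous with values in the smooth 2-forms (`C^∞` topology): in the charts the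
components are smooth maps with values in the Banach space `C(ι, E* ⊗ E*)`. -/
def SmoothFam2 (σ : ι → TwoForm E M) : Prop :=
  ∀ e ∈ atlas E M, ∃ b : E → C(ι, E →L[ℝ] E →L[ℝ] ℝ), ContDiffOn ℝ ∞ b e.target ∧
    ∀ y ∈ e.target, ∀ t, b y t = co (σ t) e y

/-- the 2-form `(1 - s) σ + s τ` -/
noncomputable def comb (s : ℝ) (σ τ : TwoForm E M) : TwoForm E M where
  form x := (1 - s) • σ.form x + s • τ.form x
  alt x v := by simp [σ.alt, τ.alt]

end

/-- **EXTF.** Extension by zero of a family of 1-forms with compact support in a chart. -/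
def S_EXTF (E : Type) [NormedAddCommGroup E] [InnerProductSpace ℝ E] [FiniteDimensional ℝ E]
    (M : Type) [TopologicalSpace M] [ChartedSpace E M] [IsManifold 𝓘(ℝ, E) ∞ M] : Prop :=
  ∀ [T2Space M], ∀ e₀ ∈ atlas E M, ∀ (ι : Type) [TopologicalSpace ι] [CompactSpace ι]
    (B : E → C(ι, E →L[ℝ] ℝ)), ContDiff ℝ ∞ B → HasCompactSupport B →
    tsupport B ⊆ e₀.target → ∃ (β : ι → Cov E M) (D : ι → TwoForm E M),
      SmoothFam1 β ∧ SmoothFam2 D ∧ ∀ t,
      SmoothCov (β t) ∧ (D t).IsSmooth ∧ (D t).IsClosedForm ∧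
      (∀ e ∈ atlas E M, ∀ y ∈ e.target, ∀ a b : E, (D t).coeff e y a b
        = fderiv ℝ (fun z => co1 (β t) e z b) y a - fderiv ℝ (fun z => co1 (β t) e z a) y b) ∧
      (∀ y ∈ e₀.target, ∀ a b : E, (D t).coeff e₀ y a b
        = fderiv ℝ (fun z => B z t) y a b - fderiv ℝ (fun z => B z t) y b a) ∧
      (∀ e ∈ atlas E M, ∀ y ∈ e.target, e.symm y ∉ e₀.source → ∀ a b : E,
        (D t).coeff e y a b = 0)

/-- **CTRF.** Taming at the centre, for a compact family of continuous forms. -/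
def S_CTRF (E : Type) [NormedAddCommGroup E] [InnerProductSpace ℝ E] [FiniteDimensional ℝ E]
    [MeasurableSpace E] [BorelSpace E] : Prop :=
  ∀ (ι : Type) [TopologicalSpace ι] [CompactSpace ι] (τ : ι → E → E →L[ℝ] E →L[ℝ] ℝ)
    (U K : Set E), IsOpen U → ContinuousOn (fun q : ι × E => τ q.1 q.2) (univ ×ˢ U) → K ⊆ U →
    IsCompact K → ∀ (C c : ℝ), 0 < c → ∃ η > 0, ∃ δ > 0, ∀ t, ∀ x ∈ K, ∀ r, 0 < r → r < δ →
      ∀ Q : E →L[ℝ] E, ‖Q‖ ≤ C →
      ∫⁻ y in ball x r, defect c (τ t y) Q ≤ ENNReal.ofReal (η * r ^ Module.finrank ℝ E) →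
      ∀ u : E, u ≠ 0 → 0 < τ t x u (Q u)

/-- **CURRY.** A jointly continuous family as a map into the Banach space `C(ι, V)`. -/
def S_CURRY (E : Type) [NormedAddCommGroup E] [InnerProductSpace ℝ E] [FiniteDimensional ℝ E]
    [MeasurableSpace E] [BorelSpace E] : Prop :=
  ∀ (ι : Type) [TopologicalSpace ι] [CompactSpace ι]
    (V : Type) [NormedAddCommGroup V] [NormedSpace ℝ V] [CompleteSpace V]
    (a : ι → E → V) (U : Set E), IsOpen U →
    ContinuousOn (fun q : ι × E => a q.1 q.2) (univ ×ˢ U) →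
    ∃ A : E → C(ι, V), ContinuousOn A U ∧ (∀ y ∈ U, ∀ t, A y t = a t y) ∧
      ∀ K ⊆ U, IsCompact K → ∀ ρ : ContDiffBump (0 : E),
        ContDiff ℝ ∞ (fun x => ∫ y, ρ.normed volume (x - y) • K.indicator A y) ∧
        ∀ x t, (∫ y, ρ.normed volume (x - y) • K.indicator A y) t
          = ∫ y, ρ.normed volume (x - y) • K.indicator (a t) y

end Pool.Agent.Y685.SY
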