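import Mathlib
import Pool.Agent.Y685.SY.Core2
import Pool.Agent.Y685.SY.Stm3

/-!
# Project SY: families of forms
-/

set_option maxSynthPendingDepth 3
set_option linter.unusedSectionVars false
set_option linter.unusedVariables false

open scoped Manifold ContDiff Topology ENNReal
open MeasureTheory Set Metric Filter
open Pool.Agent.Y519.AS (TwoForm)
open Pool.Agent.Helper831 (coordVec)

namespace Pool.Agent.Y685.SY

variable {E : Type} [NormedAddCommGroup E] [InnerProductSpace ℝ E] [FiniteDimensional ℝ E]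
  {M : Type} [TopologicalSpace M] [ChartedSpace E M] [IsManifold 𝓘(ℝ, E) ∞ M]

section Fam

variable {ι : Type} [TopologicalSpace ι] [CompactSpace ι]

/-- the constant functions -/
noncomputable def constL (ι : Type) [TopologicalSpace ι] [CompactSpace ι] (V : Type)
    [NormedAddCommGroup V] [NormedSpace ℝ V] : V →L[ℝ] C(ι, V) :=
  LinearMap.mkContinuous
    { toFun := fun v => ContinuousMap.const ι v
      map_add' := fun a b => by ext; rfl
      map_smul' := fun a b => by ext; rfl } 1 (fun v => by
        rw [one_mul]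
        exact (ContinuousMap.norm_le _ (norm_nonneg v)).2 fun t => le_refl _)

theorem constL_apply {V : Type} [NormedAddCommGroup V] [NormedSpace ℝ V] (v : V) (t : ι) :
    constL ι V v t = v := rfl

theorem contDiffOn_co {τ : TwoForm E M} (hτ : τ.IsSmooth) {e : OpenPartialHomeomorph M E}
    (he : e ∈ atlas E M) : ContDiffOn ℝ ∞ (co τ e) e.target := by
  rw [contDiffOn_clm_apply]
  intro u
  rw [contDiffOn_clm_apply]
  intro w
  exact hτ e he u w

theorem smoothFam1_sum {N : ℕ} {β : Fin N → ι → Cov E M} (h : ∀ i, SmoothFam1 (β i)) :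
    SmoothFam1 (fun t => sumCov (fun i => β i t)) := by
  intro e he
  choose b hb hb' using fun i => h i e he
  refine ⟨fun y => ∑ i, b i y, ContDiffOn.sum fun i _ => hb i, fun y hy t => ?_⟩
  rw [ContinuousMap.sum_apply]
  ext u
  rw [sumCov_co1, sum_apply]
  exact Finset.sum_congr rfl fun i _ => by rw [hb' i y hy t]

theorem smoothFam2_add {N : ℕ} {θ₀ : TwoForm E M} (h₀ : θ₀.IsSmooth)
    {D : Fin N → ι → TwoForm E M} (h : ∀ i, SmoothFam2 (D i)) :
    SmoothFam2 (fun t => addForms θ₀ (fun i => D i t)) := by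
  intro e he
  choose b hb hb' using fun i => h i e he
  have h1 : ContDiffOn ℝ ∞ (fun y => constL ι (E →L[ℝ] E →L[ℝ] ℝ) (co θ₀ e y)) e.target :=
    (constL ι (E →L[ℝ] E →L[ℝ] ℝ)).contDiff.comp_contDiffOn (contDiffOn_co h₀ he)
  have h2 : ContDiffOn ℝ ∞ (fun y => ∑ i, b i y) e.target := ContDiffOn.sum fun i _ => hb i
  refine ⟨fun y => constL ι (E →L[ℝ] E →L[ℝ] ℝ) (co θ₀ e y) + ∑ i, b i y, h1.add h2,
    fun y hy t => ?_⟩
  rw [ContinuousMap.add_apply, ContinuousMap.sum_apply, constL_apply]
  ext u w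
  rw [co_apply, addForms_coeff, add_apply, add_apply, sum_apply, sum_apply, co_apply]
  congr 1
  exact Finset.sum_congr rfl fun i _ => by rw [hb' i y hy t, co_apply]

end Fam

end Pool.Agent.Y685.SY
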