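import Mathlib
import Pool.Agent.Y685.SY.Core2
import Pool.Agent.Y685.SY.PairAF
import Pool.Agent.Y685.SY.Fam

/-!
# Project SY: the core of the smoothing theorem, families of closed forms
-/

set_option maxSynthPendingDepth 3
set_option linter.unusedSectionVars false
set_option linter.unusedVariables false

open scoped Manifold ContDiff Topology ENNReal
open MeasureTheory Set Metric Filter
open Pool.Agent.Y519.AS (TwoForm)
open Pool.Agent.Helper831 (coordVec)

namespace Pool.Agent.Y685.SY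

variable {E : Type} [NormedAddCommGroup E] [InnerProductSpace ℝ E] [FiniteDimensional ℝ E]
  {M : Type} [TopologicalSpace M] [ChartedSpace E M] [IsManifold 𝓘(ℝ, E) ∞ M]


variable [MeasurableSpace E] [BorelSpace E]

theorem core3 [CompactSpace M] [T2Space M] (hM : S_MOLL E) (hC : S_CONV E) (hCO : S_COMP2 E)
    (hLO : S_LOW2 E) (hT : S_TRANS E M) (h0 : S_EXT0 E M) (hEXF : S_EXTF E M) (hPU : S_PU E M)
    (hCU : S_CURRY E) {ι : Type} [TopologicalSpace ι] [CompactSpace ι]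
    (P : ι → OpenPartialHomeomorph M E → E → (E →L[ℝ] E) → Prop)
    {θ : ι → TwoForm E M} {θ₀ : TwoForm E M} {α : ι → Cov E M}
    (h₀ : θ₀.IsSmooth) (c₀ : θ₀.IsClosedForm) (hW : ∀ t, WeakD (θ t) θ₀ (α t))
    (hα : ∀ e ∈ atlas E M, ContinuousOn (fun q : ι × E => co1 (α q.1) e q.2) (univ ×ˢ e.target))
    (hV : ∀ e ∈ atlas E M, (∀ t, LocallyIntegrableOn (co (θ t) e) e.target) ∧
      ∀ K ⊆ e.target, IsCompact K → ∃ C : ℝ, ∃ c > 0, ∀ η > 0, ∃ δ > 0,
        ∀ t, ∀ x ∈ K, ∀ r, 0 < r → r < δ →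
        ENNReal.ofReal r * ∫⁻ y in ball x r, ‖co (θ t) e y‖ₑ
            ≤ ENNReal.ofReal (η * r ^ Module.finrank ℝ E) ∧
        ∃ Q : E →L[ℝ] E, ‖Q‖ ≤ C ∧
          ∫⁻ y in ball x r, defect c (co (θ t) e y) Q
            ≤ ENNReal.ofReal (η * r ^ Module.finrank ℝ E) ∧ P t e x Q) :
    ∃ (σ : ι → TwoForm E M) (β : ι → Cov E M), SmoothFam2 σ ∧ SmoothFam1 β ∧
      (∀ t, (σ t).IsSmooth ∧ (σ t).IsClosedForm ∧ SmoothCov (β t) ∧ IsD (σ t) θ₀ (β t)) ∧
      ∀ (t : ι) (p : M), ∃ e ∈ atlas E M, ∃ y ∈ e.target, e.symm y = p ∧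
        ∃ Q : E →L[ℝ] E, P t e y Q ∧ ∀ u : E, u ≠ 0 → 0 < (σ t).coeff e y u (Q u) := by
  obtain ⟨N, e, χ, he, χs, χc, χt, χ0, χ1⟩ := hPU
  have hS : ∀ i, ∃ r, 0 < r ∧ cthickening r (tsupport (χ i)) ⊆ (e i).target := fun i =>
    (χc i).isCompact.exists_cthickening_subset_open (e i).open_target (χt i)
  choose ri hri0 hri using hS
  set S : Fin N → Set E := fun i => tsupport (χ i) with hSdef
  set K : Fin N → Set E := fun i => cthickening (ri i) (S i) with hKdef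
  have Sc : ∀ i, IsCompact (S i) := fun i => (χc i).isCompact
  have Kc : ∀ i, IsCompact (K i) := fun i => (Sc i).cthickening
  have Kt : ∀ i, K i ⊆ (e i).target := hri
  have St : ∀ i, S i ⊆ (e i).target := χt
  -- constants of the mean taming
  choose Bi ci hci0 hBi using fun j => (hV (e j) (he j)).2 (S j) (St j) (Sc j)
  set B : ℝ := ∑ j, |Bi j| with hBdef
  have hB0 : 0 ≤ B := Finset.sum_nonneg fun j _ => abs_nonneg _
  have hBj : ∀ j, Bi j ≤ B := fun j =>
    (le_abs_self _).trans (Finset.single_le_sum (f := fun j => |Bi j|)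
      (fun j _ => abs_nonneg _) (Finset.mem_univ j))
  have hpB : ∀ j i, _ := fun j i => pairB2 hCO hLO hT (he j) (he i) (Sc j) (St j) (Sc i) (St i)
    (Kt i) (hri0 i) (le_refl (K i)) (hV (e j) (he j)).1 (hV (e i) (he i)).1
    (hci0 j) hB0
  choose L hL1 c' hc'0 hLL using hpB
  set L' : ℝ := 1 + ∑ j, ∑ i, |L j i| with hL'def
  have hL'ge : ∀ j i, L' ≥ L j i := by
    intro j i
    have h1 : |L j i| ≤ ∑ i, |L j i| :=
      Finset.single_le_sum (f := fun i => |L j i|) (fun i _ => abs_nonneg _) (Finset.mem_univ i)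
    have h2 : ∑ i, |L j i| ≤ ∑ j, ∑ i, |L j i| :=
      Finset.single_le_sum (f := fun j => ∑ i, |L j i|)
        (fun j _ => Finset.sum_nonneg fun i _ => abs_nonneg _) (Finset.mem_univ j)
    have h3 := le_abs_self (L j i)
    linarith
  have hL'0 : 0 < L' := by
    have : 0 ≤ ∑ j, ∑ i, |L j i| :=
      Finset.sum_nonneg fun j _ => Finset.sum_nonneg fun i _ => abs_nonneg _
    linarith
  choose η₀ hη₀ hηη using fun j i => hLL j i L' (hL'ge j i)
  obtain ⟨η₁, hη₁0, hη₁⟩ : ∃ d > 0, ∀ j, ∀ i, d ≤ η₀ j i := by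
    choose d hd0 hd using fun j => exists_pos_le (η₀ j) (hη₀ j)
    obtain ⟨d', hd'0, hd'⟩ := exists_pos_le d hd0
    exact ⟨d', hd'0, fun j i => (hd' j).trans (hd j i)⟩
  obtain ⟨c, hc0, hc⟩ : ∃ d > 0, ∀ j, ∀ i, d ≤ c' j i := by
    choose d hd0 hd using fun j => exists_pos_le (c' j) (hc'0 j)
    obtain ⟨d', hd'0, hd'⟩ := exists_pos_le d hd0
    exact ⟨d', hd'0, fun j i => (hd' j).trans (hd j i)⟩
  choose δ hδ0 hδ using fun j => hBi j η₁ hη₁0
  choose A hAc hAα hAm using fun i => hCU ι (E →L[ℝ] ℝ) (fun t => co1 (α t) (e i)) (e i).target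
    (e i).open_target (hα (e i) (he i))
  set ε : ℝ := c / (2 * ((N : ℝ) + 1) ^ 2 * (B + 1)) with hεdef
  have hε : 0 < ε := by positivity
  -- choice of the radius
  have ev1 : ∀ᶠ r in 𝓝[>] (0 : ℝ), ∀ j i, _ := eventually_all.2 fun j => eventually_all.2 fun i =>
    pairAF hM hC hT h0 (he j) (he i) (χs i) (χc i) (χt i) (Sc j) (St j) (Kc i) (Kt i) (hri0 i)
      (le_refl (K i)) h₀ hW (hV (e i) (he i)).1 (hAc i) (hAα i)
      (fun ρ x t => (hAm i (K i) (Kt i) (Kc i) ρ).2 x t) hε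
  have ev2 : ∀ᶠ r in 𝓝[>] (0 : ℝ), ∀ j i, _ := eventually_all.2 fun j => eventually_all.2 fun i =>
    hηη j i η₁ hη₁0 (hη₁ j i)
  have ev3 : ∀ᶠ r in 𝓝[>] (0 : ℝ), ∀ j, L' * r < δ j := eventually_all.2 fun j => by
    have : 0 < δ j / L' := div_pos (hδ0 j) hL'0
    filter_upwards [Ioo_mem_nhdsGT this] with r hr
    have h := hr.2
    rw [lt_div_iff₀ hL'0] at h
    linarith
  have ev4 : ∀ᶠ r in 𝓝[>] (0 : ℝ), ∀ i, r < ri i := eventually_all.2 fun i => by
    filter_upwards [Ioo_mem_nhdsGT (hri0 i)] with r hr using hr.2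
  obtain ⟨r, ⟨⟨⟨hr1, hr2⟩, hr3⟩, hr4⟩, hr0⟩ :=
    ((((ev1.and ev2).and ev3).and ev4).and self_mem_nhdsWithin).exists
  have hr0 : 0 < r := hr0
  let ρ : ContDiffBump (0 : E) := ⟨r / 2, r, half_pos hr0, half_lt_self hr0⟩
  have hρ : ρ.rOut = r := rfl
  have hρ' : ρ.rIn = r / 2 := rfl
  -- the smooth primitives in the charts
  have hmoll : ∀ i, ContDiff ℝ ∞ (moll ρ (K i) (A i)) := fun i =>
    (hAm i (K i) (Kt i) (Kc i) ρ).1
  have hmollt : ∀ i x t, (moll ρ (K i) (A i) x) t = moll ρ (K i) (co1 (α t) (e i)) x :=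
    fun i x t => (hAm i (K i) (Kt i) (Kc i) ρ).2 x t
  have hEXi : ∀ i, _ := fun i => hEXF (e i) (he i) ι (fun y => χ i y • moll ρ (K i) (A i) y)
    ((χs i).smul (hmoll i)) ((χc i).smul_right)
    ((tsupport_smul_subset_left (χ i) (moll ρ (K i) (A i))).trans (χt i))
  choose β D hβF hDF hall using hEXi
  have hβs : ∀ i t, SmoothCov (β i t) := fun i t => (hall i t).1
  have hDs : ∀ i t, (D i t).IsSmooth := fun i t => (hall i t).2.1
  have hDc : ∀ i t, (D i t).IsClosedForm := fun i t => (hall i t).2.2.1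
  have hDβ := fun i t => (hall i t).2.2.2.1
  have hDe : ∀ i t, ∀ y ∈ (e i).target, ∀ a b : E, (D i t).coeff (e i) y a b
        = fderiv ℝ (fun y => χ i y • moll ρ (K i) (co1 (α t) (e i)) y) y a b
          - fderiv ℝ (fun y => χ i y • moll ρ (K i) (co1 (α t) (e i)) y) y b a := by
    intro i t y hy a b
    have h1 : (fun z => (χ i z • moll ρ (K i) (A i) z) t)
        = fun y => χ i y • moll ρ (K i) (co1 (α t) (e i)) y := by
      funext z
      rw [ContinuousMap.smul_apply, hmollt]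
    rw [← h1]
    exact (hall i t).2.2.2.2.1 y hy a b
  have hD0 := fun i t => (hall i t).2.2.2.2.2
  refine ⟨fun t => addForms θ₀ (fun i => D i t), fun t => sumCov (fun i => β i t),
    smoothFam2_add h₀ hDF, smoothFam1_sum hβF, fun t => ⟨addForms_isSmooth h₀ (fun i => hDs i t),
      addForms_isClosed h₀ (fun i => hDs i t) c₀ (fun i => hDc i t),
      sumCov_smooth (fun i => hβs i t), addForms_isD (fun i => hβs i t) (fun i => hDβ i t)⟩,
    fun t p => ?_⟩
  -- choice of the chart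
  obtain ⟨j, hj⟩ : ∃ j, 1 / ((N : ℝ) + 1) ≤ (e j).source.indicator (fun p => χ j (e j p)) p := by
    by_contra hcon
    push Not at hcon
    have h1 := χ1 p
    have h2 : ∑ i, (e i).source.indicator (fun p => χ i (e i p)) p
        ≤ ∑ _i : Fin N, 1 / ((N : ℝ) + 1) := Finset.sum_le_sum fun i _ => (hcon i).le
    rw [h1] at h2
    simp only [Finset.sum_const, Finset.card_univ, Fintype.card_fin, nsmul_eq_mul] at h2
    have h3 : (N : ℝ) * (1 / ((N : ℝ) + 1)) < 1 := by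
      rw [mul_one_div, div_lt_one (by positivity)]
      linarith
    linarith
  have hNpos : (0 : ℝ) < 1 / ((N : ℝ) + 1) := by positivity
  have hps : p ∈ (e j).source := by
    by_contra hcon
    rw [indicator_of_notMem hcon] at hj
    linarith
  rw [indicator_of_mem hps] at hj
  set y : E := e j p with hy
  have hyt : y ∈ (e j).target := (e j).map_source hps
  have hyp : (e j).symm y = p := (e j).left_inv hps
  have hyS : y ∈ S j := by
    by_contra hcon
    have : χ j y = 0 := image_eq_zero_of_notMem_tsupport hcon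
    rw [this] at hj
    linarith
  obtain ⟨hrad, Q, hQ, hQi, hPQ⟩ := hδ j t y hyS (L' * r) (by positivity) (hr3 j)
  have hQB : ‖Q‖ ≤ B := hQ.trans (hBj j)
  have httj : tt (e j) (e j) (χ j) y = χ j y := by
    show (e j).source.indicator (fun p => χ j (e j p)) ((e j).symm y) = χ j y
    rw [hyp, indicator_of_mem hps]
  have htt0 : ∀ i, 0 ≤ tt (e j) (e i) (χ i) y := by
    intro i
    show 0 ≤ (e i).source.indicator (fun p => χ i (e i p)) ((e j).symm y)
    exact indicator_nonneg (fun q _ => χ0 i _) _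
  have htt00 : ∀ i, y ∉ ovl (e j) (e i) (S j) (S i) → tt (e j) (e i) (χ i) y = 0 := by
    intro i hov
    by_cases hsrc : (e j).symm y ∈ (e i).source
    · show (e i).source.indicator (fun p => χ i (e i p)) ((e j).symm y) = 0
      rw [indicator_of_mem hsrc]
      by_contra hne
      apply hov
      exact ⟨hyS, ⟨hyt, hsrc⟩, subset_tsupport _ hne⟩
    · exact indicator_of_notMem hsrc _
  -- the smeared form
  set I : Fin N → E → E → ℝ := fun i u w => ∫ z, ρ.normed volume (tr (e j) (e i) y - z)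
    * (θ t).coeff (e i) z (fderiv ℝ (tr (e j) (e i)) y u) (fderiv ℝ (tr (e j) (e i)) y w) with hI
  have hIpos : ∀ i u, 0 ≤ tt (e j) (e i) (χ i) y * I i u (Q u) := by
    intro i u
    by_cases hov : y ∈ ovl (e j) (e i) (S j) (S i)
    · refine mul_nonneg (htt0 i) ?_
      refine le_trans ?_ (hr2 j i ρ hρ hρ' t y hov Q hQB hrad hQi u)
      have := hc'0 j i
      positivity
    · rw [htt00 i hov, zero_mul]
  have hjov : y ∈ ovl (e j) (e j) (S j) (S j) := by
    refine ⟨hyS, ⟨hyt, ?_⟩, ?_⟩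
    · show (e j).symm y ∈ (e j).source
      rw [hyp]; exact hps
    · show e j ((e j).symm y) ∈ S j
      rw [hyp]; exact hyS
  have hid : fderiv ℝ (tr (e j) (e j)) y = ContinuousLinearMap.id ℝ E := by
    have h2 : HasFDerivAt (tr (e j) (e j)) (ContinuousLinearMap.id ℝ E) y := by
      refine (hasFDerivAt_id y).congr_of_eventuallyEq ?_
      filter_upwards [(e j).open_target.mem_nhds hyt] with z hz
      exact (e j).right_inv hz
    exact h2.fderiv
  have hIj : ∀ u, 1 / ((N : ℝ) + 1) * (c * ‖u‖ ^ 2) ≤ tt (e j) (e j) (χ j) y * I j u (Q u) := by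
    intro u
    have h1 := hr2 j j ρ hρ hρ' t y hjov Q hQB hrad hQi u
    have h2 : c * ‖u‖ ^ 2 ≤ I j u (Q u) := by
      refine le_trans ?_ h1
      rw [hid]
      have := hc j j
      simp only [ContinuousLinearMap.id_apply]
      gcongr
    rw [httj]
    have h3 : 0 ≤ c * ‖u‖ ^ 2 := by positivity
    calc 1 / ((N : ℝ) + 1) * (c * ‖u‖ ^ 2) ≤ χ j y * (c * ‖u‖ ^ 2) := by gcongr
      _ ≤ χ j y * I j u (Q u) := by
        have := χ0 j y
        gcongr
  have hIsum : ∀ u, 1 / ((N : ℝ) + 1) * (c * ‖u‖ ^ 2)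
      ≤ ∑ i, tt (e j) (e i) (χ i) y * I i u (Q u) := fun u =>
    (hIj u).trans (Finset.single_le_sum (f := fun i => tt (e j) (e i) (χ i) y * I i u (Q u))
      (fun i _ => hIpos i u) (Finset.mem_univ j))
  refine ⟨e j, he j, y, hyt, hyp, Q, hPQ, fun u hu => ?_⟩
  have htt : ∀ z, ∑ i, tt (e j) (e i) (χ i) z = 1 := fun z => χ1 ((e j).symm z)
  have hdiff : ∀ i, DifferentiableAt ℝ (tt (e j) (e i) (χ i)) y := by
    intro i
    have hE := h0 (e i) (he i) (χ i) (χs i) (χc i) (χt i) (e j) (he j) y hyt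
    by_cases hsrc : (e j).symm y ∈ (e i).source
    · exact (hE.1 hsrc).differentiableAt
    · exact (hE.2 hsrc).differentiableAt
  have hdsum : ∀ v : E, ∑ i, fderiv ℝ (tt (e j) (e i) (χ i)) y v = 0 := by
    intro v
    have h1 : fderiv ℝ (fun z => ∑ i, tt (e j) (e i) (χ i) z) y v
        = ∑ i, fderiv ℝ (tt (e j) (e i) (χ i)) y v := by
      rw [fderiv_fun_sum (fun i _ => hdiff i)]
      simp
    rw [← h1]
    have h2 : (fun z => ∑ i, tt (e j) (e i) (χ i) z) = fun _ => (1 : ℝ) := funext htt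
    rw [h2]
    simp
  have hAi : ∀ i, (fderiv ℝ (tt (e j) (e i) (χ i)) y u * co1 (α t) (e j) y (Q u)
        - fderiv ℝ (tt (e j) (e i) (χ i)) y (Q u) * co1 (α t) (e j) y u)
      + (tt (e j) (e i) (χ i) y * I i u (Q u)
        - tt (e j) (e i) (χ i) y * θ₀.coeff (e j) y u (Q u))
      - ε * ‖u‖ * ‖Q u‖ ≤ (D i t).coeff (e j) y u (Q u) := by
    intro i
    have h1 := hr1 j i ρ hρ t (D i t) (hDe i t) (hD0 i t) y hyS u (Q u)
    have h2 := (abs_le.1 h1).1
    linarith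
  have hsum := Finset.sum_le_sum fun i (_ : i ∈ (Finset.univ : Finset (Fin N))) => hAi i
  simp only [Finset.sum_sub_distrib, Finset.sum_add_distrib, ← Finset.sum_mul] at hsum
  rw [hdsum, hdsum, htt y] at hsum
  simp only [Finset.sum_const, Finset.card_univ, Fintype.card_fin, nsmul_eq_mul] at hsum
  have hIs := hIsum u
  rw [addForms_coeff]
  have hu0 : 0 < ‖u‖ := norm_pos_iff.2 hu
  have hQu : ‖Q u‖ ≤ B * ‖u‖ := (Q.le_opNorm u).trans (by gcongr)
  have herr : (N : ℝ) * (ε * ‖u‖ * ‖Q u‖) < 1 / ((N : ℝ) + 1) * (c * ‖u‖ ^ 2) := by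
    have h1 : (N : ℝ) * (ε * ‖u‖ * ‖Q u‖) ≤ (N : ℝ) * (ε * ‖u‖ * (B * ‖u‖)) := by gcongr
    have h2 : (N : ℝ) * (ε * ‖u‖ * (B * ‖u‖)) ≤ 1 / ((N : ℝ) + 1) * (c / 2 * ‖u‖ ^ 2) := by
      have h3 : (N : ℝ) * (ε * ‖u‖ * (B * ‖u‖)) = (N * B * ε) * ‖u‖ ^ 2 := by ring
      have h4 : (N : ℝ) * B * ε ≤ 1 / ((N : ℝ) + 1) * (c / 2) := by
        rw [hεdef, mul_div_assoc', one_div, inv_mul_eq_div, div_div,
          div_le_div_iff₀ (by positivity) (by positivity)]
        have hN0 : (0 : ℝ) ≤ N := Nat.cast_nonneg N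
        have h5 : (N : ℝ) * B ≤ ((N : ℝ) + 1) * (B + 1) := by nlinarith
        calc (N : ℝ) * B * c * (2 * ((N : ℝ) + 1))
            = (N * B) * (c * (2 * ((N : ℝ) + 1))) := by ring
          _ ≤ (((N : ℝ) + 1) * (B + 1)) * (c * (2 * ((N : ℝ) + 1))) := by gcongr
          _ = c * (2 * ((N : ℝ) + 1) ^ 2 * (B + 1)) := by ring
      calc (N : ℝ) * (ε * ‖u‖ * (B * ‖u‖)) = (N * B * ε) * ‖u‖ ^ 2 := h3
        _ ≤ (1 / ((N : ℝ) + 1) * (c / 2)) * ‖u‖ ^ 2 := by gcongr
        _ = 1 / ((N : ℝ) + 1) * (c / 2 * ‖u‖ ^ 2) := by ring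
    have h6 : 1 / ((N : ℝ) + 1) * (c / 2 * ‖u‖ ^ 2) < 1 / ((N : ℝ) + 1) * (c * ‖u‖ ^ 2) := by
      have : c / 2 * ‖u‖ ^ 2 < c * ‖u‖ ^ 2 := by
        have : 0 < c * ‖u‖ ^ 2 := by positivity
        linarith
      gcongr
    linarith
  linarith

end Pool.Agent.Y685.SY
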