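import Mathlib
import Pool.Agent.Y685.SY.Stm3
import Pool.Agent.Y141.SY.Ext

/-!
# Project SY: extension by zero of families of 1-forms (on top of helper141's file)
-/

set_option maxSynthPendingDepth 3
set_option linter.unusedSectionVars false

open scoped Manifold ContDiff Topology ENNReal
open MeasureTheory Set Metric Filter
open Pool.Agent.Y519.AS (TwoForm)
open Pool.Agent.Helper831 (coordVec)
open Pool.Agent.Y141.SY

namespace Pool.Agent.Y685.SY

section Lin

variable {E : Type} [NormedAddCommGroup E] [InnerProductSpace ℝ E] [FiniteDimensional ℝ E]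
  (ι : Type) [TopologicalSpace ι] [CompactSpace ι]

/-- pullback of families of linear forms by an endomorphism -/
noncomputable def pbL : (E →L[ℝ] E) →L[ℝ] (C(ι, E →L[ℝ] ℝ) →L[ℝ] C(ι, E →L[ℝ] ℝ)) :=
  LinearMap.toContinuousLinearMap
    { toFun := fun F => ((ContinuousLinearMap.compL ℝ E E ℝ).flip F).compLeftContinuous ℝ ι
      map_add' := by
        intro F G
        ext f t u
        simp
      map_smul' := by
        intro c F
        ext f t u
        simp }

theorem pbL_apply (F : E →L[ℝ] E) (f : C(ι, E →L[ℝ] ℝ)) (t : ι) (u : E) :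
    pbL ι F f t u = f t (F u) := rfl

/-- exchange of the arguments -/
noncomputable def swL (V : Type) [NormedAddCommGroup V] [NormedSpace ℝ V] :
    (E →L[ℝ] C(ι, V)) →L[ℝ] C(ι, E →L[ℝ] V) :=
  LinearMap.mkContinuous
    { toFun := fun A =>
        { toFun := fun t => (ContinuousMap.evalCLM ℝ t).comp A
          continuous_toFun := by
            rw [continuous_clm_apply]
            intro a
            exact (A a).continuous }
      map_add' := by
        intro A B
        ext t a
        simp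
      map_smul' := by
        intro c A
        ext t a
        simp } 1 (by
      intro A
      rw [one_mul]
      refine (ContinuousMap.norm_le _ (norm_nonneg A)).2 fun t => ?_
      refine ContinuousLinearMap.opNorm_le_bound _ (norm_nonneg A) fun a => ?_
      exact ((A a).norm_coe_le_norm t).trans (A.le_opNorm a))

theorem swL_apply {V : Type} [NormedAddCommGroup V] [NormedSpace ℝ V] (A : E →L[ℝ] C(ι, V))
    (t : ι) (a : E) : swL ι V A t a = A a t := rfl

/-- the exchange of the two arguments of bilinear forms -/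
noncomputable def flC : C(ι, E →L[ℝ] E →L[ℝ] ℝ) →L[ℝ] C(ι, E →L[ℝ] E →L[ℝ] ℝ) :=
  ((ContinuousLinearMap.flipₗᵢ ℝ E E ℝ).toContinuousLinearEquiv.toContinuousLinearMap).compLeftContinuous
    ℝ ι

theorem flC_apply (f : C(ι, E →L[ℝ] E →L[ℝ] ℝ)) (t : ι) (a b : E) : flC ι f t a b = f t b a := rfl

end Lin

variable {E : Type} [NormedAddCommGroup E] [InnerProductSpace ℝ E] [FiniteDimensional ℝ E]
  {M : Type} [TopologicalSpace M] [ChartedSpace E M] [IsManifold 𝓘(ℝ, E) ∞ M]

/-- the properties of the concrete extensions (copied from helper141's proof of the job EXT) -/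
theorem ext_props [T2Space M] (h : S_TRANS E M) {e₀ : OpenPartialHomeomorph M E}
    (he₀ : e₀ ∈ atlas E M) {B : E → E →L[ℝ] ℝ} (hB : ContDiff ℝ ∞ B)
    (hc : HasCompactSupport B) (hs : tsupport B ⊆ e₀.target) :
    SmoothCov (ext1 e₀ B : Cov E M) ∧ (ext2 e₀ B : TwoForm E M).IsSmooth ∧
      (ext2 e₀ B : TwoForm E M).IsClosedForm ∧
      (∀ e ∈ atlas E M, ∀ y ∈ e.target, ∀ a b : E, (ext2 e₀ B).coeff e y a b
        = fderiv ℝ (fun z => co1 (ext1 e₀ B) e z b) y a
          - fderiv ℝ (fun z => co1 (ext1 e₀ B) e z a) y b) ∧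
      (∀ y ∈ e₀.target, ∀ a b : E, (ext2 e₀ B).coeff e₀ y a b
        = fderiv ℝ B y a b - fderiv ℝ B y b a) ∧
      (∀ e ∈ atlas E M, ∀ y ∈ e.target, e.symm y ∉ e₀.source → ∀ a b : E,
        (ext2 e₀ B).coeff e y a b = 0) := by
  have hcd : ∀ e ∈ atlas E M, ∀ u : E, ∀ y ∈ e.target,
      ContDiffAt ℝ ∞ (fun z => co1 (ext1 e₀ B) e z u) y := fun e he u y hy =>
    co1_cd h he₀ he hB hc hs u hy
  have hfor : ∀ e ∈ atlas E M, ∀ y ∈ e.target, ∀ a b : E, (ext2 e₀ B).coeff e y a b =
      fderiv ℝ (fun z => co1 (ext1 e₀ B) e z b) y a -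
        fderiv ℝ (fun z => co1 (ext1 e₀ B) e z a) y b := fun e he y hy a b =>
    formula h he₀ he hB hc hs hy a b
  have hev : ∀ e ∈ atlas E M, ∀ y ∈ e.target, ∀ a b : E,
      (fun z => (ext2 e₀ B).coeff e z a b) =ᶠ[𝓝 y] fun z =>
      fderiv ℝ (fun z => co1 (ext1 e₀ B) e z b) z a -
        fderiv ℝ (fun z => co1 (ext1 e₀ B) e z a) z b := by
    intro e he y hy a b
    filter_upwards [e.open_target.mem_nhds hy] with z hz
    exact hfor e he z hz a b
  refine ⟨?_, ?_, ?_, hfor, ?_, ?_⟩
  · intro e he u y hy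
    exact (hcd e he u y hy).contDiffWithinAt
  · intro e he u w y hy
    refine ContDiffAt.contDiffWithinAt (ContDiffAt.congr_of_eventuallyEq ?_ (hev e he y hy u w))
    exact (cd_fderiv_apply (hcd e he w y hy) u).sub (cd_fderiv_apply (hcd e he u y hy) w)
  · intro e he y hy a b c
    have key : ∀ a b c : E, fderiv ℝ (fun z => (ext2 e₀ B).coeff e z b c) y a =
        fderiv ℝ (fun z => fderiv ℝ (fun z => co1 (ext1 e₀ B) e z c) z b) y a -
          fderiv ℝ (fun z => fderiv ℝ (fun z => co1 (ext1 e₀ B) e z b) z c) y a := by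
      intro a b c
      rw [(hev e he y hy b c).fderiv_eq]
      have d1 := (cd_fderiv_apply (hcd e he c y hy) b).differentiableAt (by simp)
      have d2 := (cd_fderiv_apply (hcd e he b y hy) c).differentiableAt (by simp)
      have := fderiv_sub d1 d2
      exact congrArg (fun L => L a) this
    rw [key a b c, key b c a, key c a b, ddz (hcd e he c y hy) a b, ddz (hcd e he a y hy) b c,
      ddz (hcd e he b y hy) c a]
    ring
  · intro y hy a b
    exact ext2_in he₀ hy a b
  · intro e he y hy hy' a b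
    exact ext2_out hy' a b

open scoped Classical in
theorem t_EXTF (h : S_TRANS E M) : S_EXTF E M := by
  intro _ e₀ he₀ ι _ _ B hB hc hs
  have hBt : ∀ t, ContDiff ℝ ∞ (fun z => B z t) := fun t =>
    (ContinuousMap.evalCLM ℝ t : C(ι, E →L[ℝ] ℝ) →L[ℝ] (E →L[ℝ] ℝ)).contDiff.comp hB
  have hsub : ∀ t, tsupport (fun z => B z t) ⊆ tsupport B := fun t => by
    apply closure_mono
    intro z hz hz'
    apply hz
    show B z t = 0
    rw [hz']; rfl
  have hct : ∀ t, HasCompactSupport (fun z => B z t) := fun t =>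
    hc.of_isClosed_subset (isClosed_tsupport _) (hsub t)
  have hst : ∀ t, tsupport (fun z => B z t) ⊆ e₀.target := fun t => (hsub t).trans hs
  -- the components as smooth maps into `C(ι, E*)`
  have key : ∀ e ∈ atlas E M, ∃ b : E → C(ι, E →L[ℝ] ℝ), ContDiffOn ℝ ∞ b e.target ∧
      ∀ y ∈ e.target, ∀ t, b y t = co1 (ext1 e₀ (fun z => B z t) : Cov E M) e y := by
    intro e he
    obtain ⟨ho, hcd, hm, -⟩ := h e he e₀ he₀
    refine ⟨fun y => if y ∈ trD e e₀ then pbL ι (fderiv ℝ (tr e e₀) y) (B (tr e e₀ y)) else 0,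
      fun y hy => ContDiffAt.contDiffWithinAt ?_, fun y hy t => ?_⟩
    · by_cases hy' : e.symm y ∈ e₀.source
      · have hyD : y ∈ trD e e₀ := ⟨hy, hy'⟩
        have hf : ContDiffAt ℝ ∞ (tr e e₀) y := hcd.contDiffAt (ho.mem_nhds hyD)
        have hF : ContDiffAt ℝ ∞ (fderiv ℝ (tr e e₀)) y := hf.fderiv_right (by simp)
        have h1 : ContDiffAt ℝ ∞ (fun z => pbL (E := E) ι (fderiv ℝ (tr e e₀) z)) y :=
          (pbL (E := E) ι).contDiff.contDiffAt.comp y hF
        have h2 : ContDiffAt ℝ ∞ (fun z => B (tr e e₀ z)) y := hB.contDiffAt.comp y hf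
        refine (h1.clm_apply h2).congr_of_eventuallyEq ?_
        filter_upwards [ho.mem_nhds hyD] with z hz
        rw [if_pos hz]
      · have hC : IsCompact (e₀.symm '' tsupport B) := hc.isCompact.image_of_continuousOn
          (e₀.continuousOn_symm.mono hs)
        have hCs : e₀.symm '' tsupport B ⊆ e₀.source := by
          rintro _ ⟨z, hz, rfl⟩
          exact e₀.map_target (hs hz)
        have h1 : e.symm y ∈ (e₀.symm '' tsupport B)ᶜ := fun hh => hy' (hCs hh)
        have h2 : ∀ᶠ z in 𝓝 y, e.symm z ∈ (e₀.symm '' tsupport B)ᶜ :=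
          (e.symm.continuousAt hy).eventually_mem (hC.isClosed.isOpen_compl.mem_nhds h1)
        refine contDiffAt_const.congr_of_eventuallyEq
          (?_ : _ =ᶠ[𝓝 y] fun _ => (0 : C(ι, E →L[ℝ] ℝ)))
        filter_upwards [h2] with z hz
        split_ifs with hzD
        · have : B (tr e e₀ z) = 0 := by
            by_contra hne
            exact hz ⟨tr e e₀ z, subset_tsupport _ hne, e₀.left_inv hzD.2⟩
          rw [this, map_zero]
        · rfl
    · ext u
      by_cases hyD : y ∈ trD e e₀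
      · simp only [if_pos hyD]
        rw [pbL_apply, ext1_tr h he₀ he hyD]
      · simp only [if_neg hyD]
        rw [ext1_out (fun hh => hyD ⟨hy, hh⟩)]
        rfl
  refine ⟨fun t => ext1 e₀ (fun z => B z t), fun t => ext2 e₀ (fun z => B z t), key, ?_,
    fun t => ext_props h he₀ (hBt t) (hct t) (hst t)⟩
  intro e he
  obtain ⟨b, hb, hb'⟩ := key e he
  refine ⟨fun y => swL ι (E →L[ℝ] ℝ) (fderiv ℝ b y) - flC ι (swL ι (E →L[ℝ] ℝ) (fderiv ℝ b y)),
    ?_, fun y hy t => ?_⟩
  · have h1 : ContDiffOn ℝ ∞ (fderiv ℝ b) e.target :=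
      hb.fderiv_of_isOpen e.open_target (by simp)
    have h2 : ContDiffOn ℝ ∞ (fun y => swL ι (E →L[ℝ] ℝ) (fderiv ℝ b y)) e.target :=
      (swL ι (E →L[ℝ] ℝ)).contDiff.comp_contDiffOn h1
    exact h2.sub ((flC ι).contDiff.comp_contDiffOn h2)
  · have hd : DifferentiableAt ℝ b y :=
      ((hb.contDiffAt (e.open_target.mem_nhds hy)).differentiableAt (by simp))
    have hval : ∀ c a : E, fderiv ℝ (fun z => co1 (ext1 e₀ (fun z => B z t) : Cov E M) e z c) y a
        = fderiv ℝ b y a t c := by
      intro c a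
      have e1 : (fun z => co1 (ext1 e₀ (fun z => B z t) : Cov E M) e z c)
          =ᶠ[𝓝 y] fun z => b z t c := by
        filter_upwards [e.open_target.mem_nhds hy] with z hz
        rw [hb' z hz t]
      rw [e1.fderiv_eq]
      have e2 : HasFDerivAt (fun z => b z t c)
          (((ContinuousLinearMap.apply ℝ ℝ c).comp
            (ContinuousMap.evalCLM ℝ t : C(ι, E →L[ℝ] ℝ) →L[ℝ] (E →L[ℝ] ℝ))).comp
            (fderiv ℝ b y)) y :=
        ((ContinuousLinearMap.apply ℝ ℝ c).comp
            (ContinuousMap.evalCLM ℝ t : C(ι, E →L[ℝ] ℝ) →L[ℝ] (E →L[ℝ] ℝ))).hasFDerivAt.comp y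
          hd.hasFDerivAt
      rw [e2.fderiv]
      rfl
    ext a c
    rw [ContinuousMap.sub_apply, sub_apply, sub_apply, flC_apply, swL_apply, swL_apply, co_apply,
      formula h he₀ he (hBt t) (hct t) (hst t) hy a c, hval c a, hval a c]

end Pool.Agent.Y685.SY
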