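import Mathlib
import Pool.Agent.Y685.SY.Defs2

/-!
# Families of 2-forms tamed by fields of endomorphisms of vanishing oscillation
-/

set_option maxSynthPendingDepth 3

open scoped Manifold ContDiff Topology ENNReal
open MeasureTheory Set Metric Filter
open Pool.Agent.Y519.AS (TwoForm)
open Pool.Agent.Helper831 (coordVec)

namespace Pool.Agent.Y685.SY

variable {E : Type} [NormedAddCommGroup E] [InnerProductSpace ℝ E] [FiniteDimensional ℝ E]
  {M : Type} [TopologicalSpace M] [ChartedSpace E M] [MeasurableSpace E] [BorelSpace E] {ι : Type}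

/-- `θ t (u, A t u) ≥ c |u|²` almost everywhere, with `c > 0` independent of `t`, on compact
subsets of the charts. -/
def TamesF (A : ι → EndField E M) (θ : ι → TwoForm E M) : Prop :=
  ∀ e ∈ atlas E M, ∀ K ⊆ e.target, IsCompact K → ∃ c > 0, ∀ t, ∀ᵐ y ∂(volume.restrict K),
    ∀ u : E, c * ‖u‖ ^ 2 ≤ (θ t).coeff e y u (mat (A t) e y u)

/-- `θ t` is locally integrable and, on compact subsets of the charts, uniformly in `t` as
`r → 0`, the integral of `|θ t|` over a ball of radius `r` is `o(r ^ (m - 1))`, and for some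
endomorphism `Q`, `|Q| ≤ C`, depending on the ball and on `t`, the integral of
`|θ t| |A t - Q|` is `o(r ^ m)`. -/
def VanOscF (θ : ι → TwoForm E M) (A : ι → EndField E M) : Prop :=
  ∀ e ∈ atlas E M, (∀ t, LocallyIntegrableOn (co (θ t) e) e.target) ∧
    ∀ K ⊆ e.target, IsCompact K → ∃ C : ℝ, ∀ η > 0, ∃ δ > 0, ∀ t, ∀ x ∈ K, ∀ r, 0 < r → r < δ →
      ENNReal.ofReal r * ∫⁻ y in ball x r, ‖co (θ t) e y‖ₑ
          ≤ ENNReal.ofReal (η * r ^ Module.finrank ℝ E) ∧
      ∃ Q : E →L[ℝ] E, ‖Q‖ ≤ C ∧
        ∫⁻ y in ball x r, ‖co (θ t) e y‖ₑ * ‖mat (A t) e y - Q‖ₑ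
          ≤ ENNReal.ofReal (η * r ^ Module.finrank ℝ E)

/-- the 2-form is continuous: so are its components in the charts of the atlas -/
def ContForm (τ : TwoForm E M) : Prop :=
  ∀ e ∈ atlas E M, ∀ u w : E, ContinuousOn (fun y => τ.coeff e y u w) e.target

/-- `θ` and `τ` are nondegenerate and induce the same orientation almost everywhere: in the charts
their components are joined by paths of nondegenerate alternating bilinear forms. -/
def SameOriAE (θ τ : TwoForm E M) : Prop :=
  ∀ e ∈ atlas E M, ∀ᵐ y ∂(volume.restrict e.target), JoinedIn (NDA E) (co θ e y) (co τ e y)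

/-- `θ` and `τ` are nondegenerate and induce the same orientation at every point. -/
def SameOri (θ τ : TwoForm E M) : Prop :=
  ∀ e ∈ atlas E M, ∀ y ∈ e.target, JoinedIn (NDA E) (co θ e y) (co τ e y)

end Pool.Agent.Y685.SY
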