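import Mathlib
import Pool.Agent.Y685.SY.Prep
import Pool.Agent.Y685.SY.Stm2
import Pool.Agent.Y685.SY.Defs3

/-!
# Project SY: sufficient conditions for tameness in the mean
-/

set_option maxSynthPendingDepth 3
set_option linter.unusedSectionVars false

open scoped Manifold ContDiff Topology ENNReal
open MeasureTheory Set Metric Filter
open Pool.Agent.Y519.AS (TwoForm)
open Pool.Agent.Helper831 (coordVec)

namespace Pool.Agent.Y685.SY

variable {E : Type} [NormedAddCommGroup E] [InnerProductSpace ℝ E] [FiniteDimensional ℝ E]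
  {M : Type} [TopologicalSpace M] [ChartedSpace E M] [IsManifold 𝓘(ℝ, E) ∞ M]
  [MeasurableSpace E] [BorelSpace E] {ι : Type}

theorem defect_le_of_tame {c : ℝ} {b : E →L[ℝ] E →L[ℝ] ℝ} {A Q : E →L[ℝ] E}
    (h : ∀ u : E, c * ‖u‖ ^ 2 ≤ b u (A u)) : defect c b Q ≤ ‖b‖ₑ * ‖A - Q‖ₑ := by
  refine iSup₂_le fun u hu => ?_
  have h1 := h u
  rw [hu] at h1
  have h2 : b u ((A - Q) u) ≤ ‖b‖ * ‖A - Q‖ := by
    calc b u ((A - Q) u) ≤ ‖b u ((A - Q) u)‖ := le_abs_self _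
      _ ≤ ‖b‖ * ‖u‖ * ‖(A - Q) u‖ := b.le_opNorm₂ _ _
      _ ≤ ‖b‖ * ‖u‖ * (‖A - Q‖ * ‖u‖) := by gcongr; exact (A - Q).le_opNorm u
      _ = ‖b‖ * ‖A - Q‖ := by rw [hu]; ring
  have h3 : b u ((A - Q) u) = b u (A u) - b u (Q u) := by
    rw [sub_apply, map_sub]
  have h4 : c - b u (Q u) ≤ ‖b‖ * ‖A - Q‖ := by
    rw [h3] at h2
    linarith
  calc ENNReal.ofReal (c - b u (Q u)) ≤ ENNReal.ofReal (‖b‖ * ‖A - Q‖) :=
        ENNReal.ofReal_le_ofReal h4
    _ = ‖b‖ₑ * ‖A - Q‖ₑ := by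
        rw [ENNReal.ofReal_mul (norm_nonneg _), ofReal_norm, ofReal_norm]

theorem meanTame_of_vanOscF {θ : ι → TwoForm E M} {A : ι → EndField E M} (hT : TamesF A θ)
    (hV : VanOscF θ A) : MeanTame θ := by
  intro e he
  obtain ⟨h1, h2⟩ := hV e he
  refine ⟨h1, fun K hK hKc => ?_⟩
  obtain ⟨r₀, hr₀, hKr⟩ := hKc.exists_cthickening_subset_open e.open_target hK
  obtain ⟨C, hC⟩ := h2 K hK hKc
  obtain ⟨c, hc, hcT⟩ := hT e he (cthickening r₀ K) hKr hKc.cthickening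
  refine ⟨C, c, hc, fun η hη => ?_⟩
  obtain ⟨δ, hδ, H⟩ := hC η hη
  refine ⟨min δ r₀, lt_min hδ hr₀, fun t x hx r hr hrδ => ?_⟩
  obtain ⟨g1, Q, g2, g3⟩ := H t x hx r hr (hrδ.trans_le (min_le_left _ _))
  refine ⟨g1, Q, g2, le_trans ?_ g3⟩
  have hball : ball x r ⊆ cthickening r₀ K := by
    intro z hz
    exact mem_cthickening_of_dist_le z x r₀ _ hx
      ((mem_ball.1 hz).le.trans (hrδ.le.trans (min_le_right _ _)))
  refine lintegral_mono_ae ?_
  filter_upwards [ae_restrict_of_ae_restrict_of_subset hball (hcT t)] with y hy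
  exact defect_le_of_tame hy

theorem contL1_of_sobolev [TopologicalSpace ι] (hLM : S_LMLI E) (hm : 0 < Module.finrank ℝ E)
    {θ : ι → TwoForm E M} (hS : SobolevFamily θ) : ContL1 θ := by
  intro e he K hK hKc t₀
  obtain ⟨G, hG1, hG2⟩ := hS e he
  exact (hLM hm).2 ι _ (fun t => co (θ t) e) K hKc (fun t => (hG1 t).1.1.mono_set hK) t₀
    (hG2.1 K hK hKc t₀)

theorem meanTame_of_sobolev [TopologicalSpace ι] [CompactSpace ι] (hH : S_HOLD E) (hLM : S_LMLI E)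
    (hPo : S_POIN E) (hGo : S_GOODB E) (hEq : S_EQUI E) (hm : 0 < Module.finrank ℝ E)
    {θ : ι → TwoForm E M} (hS : SobolevFamily θ) (hN : UnifNondeg θ) : MeanTame θ := by
  obtain ⟨CH, hCH, HH⟩ := hH hm
  obtain ⟨CP, hCP, HP⟩ := hPo
  set m := Module.finrank ℝ E with hmdef
  intro e he
  obtain ⟨G, hG1, hG2⟩ := hS e he
  have hLθ : ∀ t, LocallyIntegrableOn (co (θ t) e) e.target := fun t =>
    (hLM hm).1 _ (co (θ t) e) e.target e.open_target (hG1 t).1.1 (hG1 t).1.2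
  have hLG : ∀ t, LocallyIntegrableOn (G t) e.target := fun t =>
    (hLM hm).1 _ (G t) e.target e.open_target (hG1 t).2.1.1 (hG1 t).2.1.2
  refine ⟨hLθ, fun K hK hKc => ?_⟩
  obtain ⟨r₀, hr₀, hKr⟩ := hKc.exists_cthickening_subset_open e.open_target hK
  obtain ⟨c, hc, hcN⟩ := hN e he (cthickening r₀ K) hKr hKc.cthickening
  refine ⟨1 / c, 1, one_pos, fun η hη => ?_⟩
  -- small parameters
  set ε₁ : ℝ := η / CH with hε₁
  have hε₁0 : 0 < ε₁ := by positivity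
  set κ₀ : ℝ := CP / 2 * (CH * 2 ^ m) with hκ₀
  have hκ₀0 : 0 < κ₀ := by positivity
  set ε₂ : ℝ := η * c / (2 * κ₀) with hε₂
  have hε₂0 : 0 < ε₂ := by positivity
  obtain ⟨δ₁, hδ₁, H₁⟩ := hEq hm ι _ (fun t => co (θ t) e) e.target e.open_target
    (fun t => (hG1 t).1.1) (fun t => (hG1 t).1.2) hG2.1 K hK hKc (ε₁ ^ m) (by positivity)
  obtain ⟨δ₂, hδ₂, H₂⟩ := hEq hm ι _ G e.target e.open_target
    (fun t => (hG1 t).2.1.1) (fun t => (hG1 t).2.1.2) hG2.2 K hK hKc (ε₂ ^ m) (by positivity)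
  refine ⟨min (min δ₁ (δ₂ / 2)) r₀, lt_min (lt_min hδ₁ (half_pos hδ₂)) hr₀,
    fun t x hx r hr hrδ => ?_⟩
  have hr1 : r < δ₁ := hrδ.trans_le ((min_le_left _ _).trans (min_le_left _ _))
  have hr2 : r < δ₂ / 2 := hrδ.trans_le ((min_le_left _ _).trans (min_le_right _ _))
  have hr3 : r < r₀ := hrδ.trans_le (min_le_right _ _)
  have hballr : ball x r ⊆ cthickening r₀ K := by
    intro z hz
    exact mem_cthickening_of_dist_le z x r₀ _ hx ((mem_ball.1 hz).le.trans hr3.le)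
  have hball1 : ball x r ⊆ e.target := hballr.trans hKr
  have hball2 : closedBall x (2 * r) ⊆ e.target :=
    (closedBall_subset_closedBall (by linarith)).trans (H₂ t x hx).1
  have hball2' : ball x (2 * r) ⊆ e.target := ball_subset_closedBall.trans hball2
  constructor
  · have h1 := HH _ (co (θ t) e) x r ε₁ hr hε₁0.le ((hG1 t).1.1.mono_set hball1)
      ((lintegral_mono_set (ball_subset_ball hr1.le)).trans (H₁ t x hx).2)
    have h2 : CH * ε₁ = η := by rw [hε₁]; field_simp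
    rwa [h2] at h1
  · obtain ⟨B₀, hB₀⟩ := HP _ (co (θ t) e) (G t) e.target e.open_target (hLθ t) (hLG t)
      (hG1 t).2.2 x r hr hball2
    have h1 := HH _ (G t) x (2 * r) ε₂ (by positivity) hε₂0.le ((hG1 t).2.1.1.mono_set hball2')
      ((lintegral_mono_set (ball_subset_ball (by linarith))).trans (H₂ t x hx).2)
    have h2 : ∫⁻ y in ball x r, ‖co (θ t) e y - B₀‖ₑ ≤ ENNReal.ofReal (κ₀ * ε₂ * r ^ m) := by
      refine hB₀.trans ?_
      have h3 : ENNReal.ofReal (CP * r) = ENNReal.ofReal (CP / 2) * ENNReal.ofReal (2 * r) := by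
        rw [← ENNReal.ofReal_mul (by positivity)]
        congr 1
        ring
      rw [h3, mul_assoc]
      calc ENNReal.ofReal (CP / 2) * (ENNReal.ofReal (2 * r) * ∫⁻ y in ball x (2 * r), ‖G t y‖ₑ)
          ≤ ENNReal.ofReal (CP / 2) * ENNReal.ofReal (CH * ε₂ * (2 * r) ^ m) := by gcongr
        _ = ENNReal.ofReal (κ₀ * ε₂ * r ^ m) := by
            rw [← ENNReal.ofReal_mul (by positivity)]
            congr 1
            rw [hκ₀, mul_pow]
            ring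
    obtain ⟨Q, hQ1, hQ2⟩ := hGo (co (θ t) e) B₀ x r c (κ₀ * ε₂) hr hc (by positivity)
      ((hG1 t).1.1.mono_set hball1) (fun y u => (θ t).alt _ _)
      (ae_restrict_of_ae_restrict_of_subset hballr (hcN t)) h2
    refine ⟨Q, hQ1, ?_⟩
    have h4 : 2 * (κ₀ * ε₂) / c = η := by rw [hε₂]; field_simp
    rwa [h4] at hQ2

end Pool.Agent.Y685.SY
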