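import Mathlib
import Pool.Agent.Y685.SY.Core2
import Pool.Agent.Y685.SY.Tame

/-!
# Project SY: the smoothing theorems, from the core
-/

set_option maxSynthPendingDepth 3
set_option linter.unusedSectionVars false

open scoped Manifold ContDiff Topology ENNReal
open MeasureTheory Set Metric Filter
open Pool.Agent.Y519.AS (TwoForm)
open Pool.Agent.Helper831 (coordVec)

namespace Pool.Agent.Y685.SY

section Linear

variable {E : Type} [NormedAddCommGroup E] [InnerProductSpace ℝ E] [FiniteDimensional ℝ E]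

theorem nda_of_pos {b : E →L[ℝ] E →L[ℝ] ℝ} {Q : E →L[ℝ] E} (halt : ∀ u, b u u = 0)
    (hpos : ∀ u : E, u ≠ 0 → 0 < b u (Q u)) : b ∈ NDA E := by
  refine ⟨halt, fun u hu => ?_⟩
  by_contra hne
  have := hpos u hne
  rw [hu (Q u)] at this
  exact lt_irrefl _ this

theorem joinedIn_of_pos {b₀ b₁ : E →L[ℝ] E →L[ℝ] ℝ} {Q : E →L[ℝ] E} (h0 : ∀ u, b₀ u u = 0)
    (h1 : ∀ u, b₁ u u = 0) (hp0 : ∀ u : E, u ≠ 0 → 0 < b₀ u (Q u))
    (hp1 : ∀ u : E, u ≠ 0 → 0 < b₁ u (Q u)) : JoinedIn (NDA E) b₀ b₁ := by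
  refine JoinedIn.ofLine (f := fun s : ℝ => (1 - s) • b₀ + s • b₁) (by fun_prop) (by simp)
    (by simp) ?_
  rintro _ ⟨s, hs, rfl⟩
  refine nda_of_pos (Q := Q) (fun u => ?_) (fun u hu => ?_)
  · simp [h0, h1]
  · have a0 := hp0 u hu
    have a1 := hp1 u hu
    simp only [add_apply, smul_apply, smul_eq_mul]
    rcases hs.1.lt_or_eq with h | h
    · have : 0 < s * b₁ u (Q u) := mul_pos h a1
      have : 0 ≤ (1 - s) * b₀ u (Q u) := mul_nonneg (by linarith [hs.2]) a0.le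
      linarith
    · rw [← h]; linarith

theorem joinedIn_pullback {b₀ b₁ : E →L[ℝ] E →L[ℝ] ℝ} (h : JoinedIn (NDA E) b₀ b₁)
    {F G : E →L[ℝ] E} (hGF : ∀ u, G (F u) = u) (hFG : ∀ u, F (G u) = u)
    {d₀ d₁ : E →L[ℝ] E →L[ℝ] ℝ} (h0 : ∀ u w, d₀ u w = b₀ (F u) (F w))
    (h1 : ∀ u w, d₁ u w = b₁ (F u) (F w)) : JoinedIn (NDA E) d₀ d₁ := by
  obtain ⟨γ, hγ⟩ := h
  let pb : (E →L[ℝ] E →L[ℝ] ℝ) → (E →L[ℝ] E →L[ℝ] ℝ) := fun b => ((b.comp F).flip.comp F).flip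
  have hpb : ∀ b u w, pb b u w = b (F u) (F w) := fun b u w => rfl
  have hc : Continuous pb := by
    rw [continuous_clm_apply]
    intro u
    rw [continuous_clm_apply]
    intro w
    simp only [hpb]
    fun_prop
  have e0 : pb b₀ = d₀ := by
    ext u w
    rw [hpb, h0]
  have e1 : pb b₁ = d₁ := by
    ext u w
    rw [hpb, h1]
  rw [← e0, ← e1]
  refine ⟨γ.map hc, fun t => ?_⟩
  have ht := hγ t
  refine ⟨fun u => ?_, fun u hu => ?_⟩
  · show pb (γ t) u u = 0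
    rw [hpb]; exact ht.1 _
  · have h2 : F u = 0 := by
      refine ht.2 (F u) fun w => ?_
      have := hu (G w)
      change pb (γ t) u (G w) = 0 at this
      rwa [hpb, hFG] at this
    rw [← hGF u, h2, map_zero]

end Linear

variable {E : Type} [NormedAddCommGroup E] [InnerProductSpace ℝ E] [FiniteDimensional ℝ E]
  {M : Type} [TopologicalSpace M] [ChartedSpace E M] [IsManifold 𝓘(ℝ, E) ∞ M]
  [MeasurableSpace E] [BorelSpace E]

theorem continuousOn_co_of {τ : TwoForm E M} (hτ : ContForm τ) {e : OpenPartialHomeomorph M E}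
    (he : e ∈ atlas E M) : ContinuousOn (co τ e) e.target := by
  rw [continuousOn_clm_apply]
  intro u
  rw [continuousOn_clm_apply]
  intro w
  exact hτ e he u w

/-- paths of rough forms -/
theorem main2 [CompactSpace M] [T2Space M] (hM : S_MOLL E) (hC : S_CONV E) (hCO : S_COMP2 E)
    (hLO : S_LOW2 E) (hT : S_TRANS E M) (h0 : S_EXT0 E M) (hEX : S_EXT E M) (hPU : S_PU E M)
    (hSM : S_SMEAR E M) (hHO : S_HOM E M) (hCT : S_CTR E)
    {θ : unitInterval → TwoForm E M} {θ₀ : TwoForm E M} {α : Cov E M}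
    (h₀ : θ₀.IsSmooth) (c₀ : θ₀.IsClosedForm) (hW : WeakD (θ 1) θ₀ α) (hτ : ContForm (θ 0))
    (hcont : ContL1 θ) (hV : MeanTame θ) :
    ∃ (σ : TwoForm E M) (β : Cov E M), σ.IsSymplectic ∧ SmoothCov β ∧ IsD σ θ₀ β ∧
      TwoForm.Homotopic (θ 0) σ := by
  obtain ⟨σ, β, τ, s1, s2, s3, s4, s5, s6⟩ := core2 hM hC hCO hLO hT h0 hEX hPU hSM
    (fun t e x Q => t = 0 → ∀ u : E, u ≠ 0 → 0 < (θ 0).coeff e x u (Q u))
    (θ := θ) (t₁ := 1) h₀ c₀ hW hcont (by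
      intro e he
      obtain ⟨a1, a2⟩ := hV e he
      refine ⟨a1, fun K hK hKc => ?_⟩
      obtain ⟨C, c, hc, H⟩ := a2 K hK hKc
      obtain ⟨η₂, hη₂, δ₂, hδ₂, H₂⟩ := hCT (co (θ 0) e) e.target K e.open_target
        (continuousOn_co_of hτ he) hK hKc C c hc
      refine ⟨C, c, hc, fun η hη => ?_⟩
      obtain ⟨δ, hδ, H'⟩ := H (min η η₂) (lt_min hη hη₂)
      refine ⟨min δ δ₂, lt_min hδ hδ₂, fun t x hx r hr hrδ => ?_⟩
      obtain ⟨b1, Q, b2, b3⟩ := H' t x hx r hr (hrδ.trans_le (min_le_left _ _))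
      have m1 : ENNReal.ofReal (min η η₂ * r ^ Module.finrank ℝ E)
          ≤ ENNReal.ofReal (η * r ^ Module.finrank ℝ E) := by
        apply ENNReal.ofReal_le_ofReal
        gcongr
        exact min_le_left _ _
      have m2 : ENNReal.ofReal (min η η₂ * r ^ Module.finrank ℝ E)
          ≤ ENNReal.ofReal (η₂ * r ^ Module.finrank ℝ E) := by
        apply ENNReal.ofReal_le_ofReal
        gcongr
        exact min_le_right _ _
      refine ⟨b1.trans m1, Q, b2, b3.trans m1, ?_⟩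
      rintro rfl
      exact H₂ x hx r hr (hrδ.trans_le (min_le_right _ _)) Q b2 (b3.trans m2))
  have hτc : ∀ t, ContForm (τ t) := by
    intro t e he u w
    have := s5 e he u w
    exact this.comp (f := fun y : E => (t, y)) (by fun_prop) (fun y hy => ⟨mem_univ _, hy⟩)
  have hσc : ContForm σ := fun e he u w => (s1 e he u w).continuousOn
  have n1 : ∀ t, (τ t).IsNondegenerate := fun t => hHO.1 (τ t) fun p => by
    obtain ⟨e, he, y, hy, hp, Q, -, hQ, -⟩ := s6 t p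
    exact ⟨e, he, y, hy, hp, Q, hQ⟩
  have n2 : σ.IsNondegenerate := hHO.1 σ fun p => by
    obtain ⟨e, he, y, hy, hp, Q, -, -, hQ⟩ := s6 1 p
    exact ⟨e, he, y, hy, hp, Q, hQ rfl⟩
  have j1 : TwoForm.Homotopic (θ 0) (τ 0) := hHO.2.1 _ _
    (fun e he => continuousOn_co_of hτ he) (fun e he => continuousOn_co_of (hτc 0) he) fun p => by
    obtain ⟨e, he, y, hy, hp, Q, hP, hQ, -⟩ := s6 0 p
    exact ⟨e, he, y, hy, hp, Q, fun u hu => ⟨hP rfl u hu, hQ u hu⟩⟩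
  have j2 : TwoForm.Homotopic (τ 0) (τ 1) := hHO.2.2.1 τ n1 s5
  have j3 : TwoForm.Homotopic (τ 1) σ := hHO.2.1 _ _
    (fun e he => continuousOn_co_of (hτc 1) he) (fun e he => continuousOn_co_of hσc he) fun p => by
    obtain ⟨e, he, y, hy, hp, Q, -, hQ, hQ'⟩ := s6 1 p
    exact ⟨e, he, y, hy, hp, Q, fun u hu => ⟨hQ u hu, hQ' rfl u hu⟩⟩
  exact ⟨σ, β, ⟨s1, s2, n2⟩, s3, s4, hHO.2.2.2 _ _ _ j1 (hHO.2.2.2 _ _ _ j2 j3)⟩

end Pool.Agent.Y685.SY
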