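import Mathlib
import Pool.Agent.Y685.SY.Main
import Pool.Agent.Y547.SY.Ctr
import Pool.Agent.Helper831.SemiLemmas

/-!
# Project SY: one form, with all orientations (after helper547's proof of the job ORI)
-/

set_option maxSynthPendingDepth 3
set_option linter.unusedSectionVars false

open scoped Manifold ContDiff Topology ENNReal
open MeasureTheory Set Metric Filter
open Pool.Agent.Y519.AS (TwoForm)
open Pool.Agent.Helper831 (coordVec)

namespace Pool.Agent.Y685.SY

variable {E : Type} [NormedAddCommGroup E] [InnerProductSpace ℝ E] [FiniteDimensional ℝ E]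

section
variable [MeasurableSpace E] [BorelSpace E]

open Pool.Agent.Y547.SY in
theorem ori_unif (Θ : E → E →L[ℝ] E →L[ℝ] ℝ) {U K : Set E} (hU : IsOpen U) (hKU : K ⊆ U)
    (hK : IsCompact K) {c : ℝ} (hc : 0 < c) : ∃ η > 0, ∃ δ > 0,
    ∀ x ∈ K, ∀ r, 0 < r → r < δ → ∀ Q : E →L[ℝ] E,
      ∫⁻ y in ball x r, defect c (Θ y) Q ≤ ENNReal.ofReal (η * r ^ Module.finrank ℝ E) →
      ∀ τ : E → E →L[ℝ] E →L[ℝ] ℝ, ContinuousOn τ U → (∀ y ∈ U, τ y ∈ NDA E) →
      (∀ᵐ y ∂(volume.restrict U), JoinedIn (NDA E) (Θ y) (τ y)) →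
      ∃ b ∈ NDA E, (∀ u : E, u ≠ 0 → 0 < b u (Q u)) ∧ JoinedIn (NDA E) b (τ x) := by
  have hv := vb_pos (E := E)
  obtain ⟨δ, hδ, h1⟩ := nbhd hU hKU hK
  refine ⟨c / 8 * vb E, by positivity, δ, hδ, ?_⟩
  intro x hx r hr hrδ Q hint τ hτ hN hJ
  have hbU : ball x r ⊆ U := (ball_subset_ball hrδ.le).trans (h1 x hx)
  have hz : ∃ z ∈ ball x r, defect c (Θ z) Q ≤ ENNReal.ofReal (c / 2) ∧
      JoinedIn (NDA E) (Θ z) (τ z) := by
    by_contra hcon
    push Not at hcon
    have h2 : ∀ᵐ y ∂(volume.restrict (ball x r)), JoinedIn (NDA E) (Θ y) (τ y) :=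
      ae_restrict_of_ae_restrict_of_subset hbU hJ
    have h3 : ∀ᵐ y ∂(volume.restrict (ball x r)), ENNReal.ofReal (c / 2) ≤ defect c (Θ y) Q := by
      filter_upwards [h2, ae_restrict_mem measurableSet_ball] with y hy1 hy2
      by_contra h
      push Not at h
      exact hcon y hy2 h.le hy1
    have h4 : ENNReal.ofReal (c / 2) * volume (ball x r) ≤
        ENNReal.ofReal (c / 8 * vb E * r ^ Module.finrank ℝ E) := by
      rw [← setLIntegral_const]
      exact (lintegral_mono_ae h3).trans hint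
    exact vol_contra x hr (by positivity) (by positivity)
      (by nlinarith [mul_pos hc hv]) h4
  obtain ⟨z, hzb, hzd, hzJ⟩ := hz
  refine ⟨Θ z, hzJ.source_mem, ?_, ?_⟩
  · intro u hu
    obtain ⟨hw1, hw2⟩ := norml (Θ z) Q hu
    have h2 := (le_defect c (Θ z) Q hw1).trans hzd
    rw [ENNReal.ofReal_le_ofReal_iff (by positivity)] at h2
    rw [hw2]
    have := norm_pos_iff.2 hu
    apply mul_pos (by positivity)
    linarith
  · have hpc : IsPathConnected (ball x r) :=
      (convex_ball x r).isPathConnected ⟨x, mem_ball_self hr⟩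
    have h2 := (hpc.image' (hτ.mono hbU)).joinedIn (τ z) (mem_image_of_mem τ hzb) (τ x)
      (mem_image_of_mem τ (mem_ball_self hr))
    refine hzJ.trans (h2.mono ?_)
    rintro _ ⟨y, hy, rfl⟩
    exact hN y (hbU hy)

end

variable {M : Type} [TopologicalSpace M] [ChartedSpace E M] [IsManifold 𝓘(ℝ, E) ∞ M]

theorem nda_of_nondeg {τ : TwoForm E M} (hτ : τ.IsNondegenerate) {e : OpenPartialHomeomorph M E}
    (he : e ∈ atlas E M) {y : E} (hy : y ∈ e.target) : co τ e y ∈ NDA E := by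
  refine ⟨fun u => τ.alt _ _, fun u hu => ?_⟩
  have h1 : coordVec (M := M) e y u = 0 := by
    refine hτ (e.symm y) _ fun w => ?_
    obtain ⟨w', hw'⟩ := Pool.Agent.Helper831.exists_cvec he hy w
    have := hu w'
    change τ.form (e.symm y) (coordVec e y u) (coordVec e y w') = 0 at this
    rw [← hw']
    exact this
  exact Pool.Agent.Helper831.cvec_injective he hy u h1

variable [MeasurableSpace E] [BorelSpace E]

/-- one form, with the orientation -/
theorem main1' [CompactSpace M] [T2Space M] (hM : S_MOLL E) (hC : S_CONV E) (hCO : S_COMP2 E)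
    (hLO : S_LOW2 E) (hT : S_TRANS E M) (h0 : S_EXT0 E M) (hEX : S_EXT E M) (hPU : S_PU E M)
    (hSM : S_SMEAR E M) (hHO : S_HOM E M)
    {θ θ₀ : TwoForm E M} {α : Cov E M}
    (h₀ : θ₀.IsSmooth) (c₀ : θ₀.IsClosedForm) (hW : WeakD θ θ₀ α)
    (hV : MeanTame (fun _ : Unit => θ)) :
    ∃ (σ : TwoForm E M) (β : Cov E M), σ.IsSymplectic ∧ SmoothCov β ∧ IsD σ θ₀ β ∧
      ∀ τ : TwoForm E M, ContForm τ → τ.IsNondegenerate → SameOriAE θ τ → SameOri σ τ := by
  have hcont : ContL1 (fun _ : Unit => θ) := by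
    intro e he K hK hKc t₀
    simp
  obtain ⟨σ, β, τ', s1, s2, s3, s4, s5, s6⟩ := core2 hM hC hCO hLO hT h0 hEX hPU hSM
    (fun _ e x Q => ∀ τ : TwoForm E M, ContForm τ → τ.IsNondegenerate → SameOriAE θ τ →
      ∃ b ∈ NDA E, (∀ u : E, u ≠ 0 → 0 < b u (Q u)) ∧
      JoinedIn (NDA E) b (co τ e x)) (θ := fun _ : Unit => θ) (t₁ := ()) h₀ c₀ hW hcont (by
      intro e he
      obtain ⟨a1, a2⟩ := hV e he
      refine ⟨a1, fun K hK hKc => ?_⟩
      obtain ⟨C, c, hc, H⟩ := a2 K hK hKc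
      obtain ⟨η₂, hη₂, δ₂, hδ₂, H₂⟩ := ori_unif (co θ e) e.open_target hK hKc hc
      refine ⟨C, c, hc, fun η hη => ?_⟩
      obtain ⟨δ, hδ, H'⟩ := H (min η η₂) (lt_min hη hη₂)
      refine ⟨min δ δ₂, lt_min hδ hδ₂, fun t x hx r hr hrδ => ?_⟩
      obtain ⟨b1, Q, b2, b3⟩ := H' t x hx r hr (hrδ.trans_le (min_le_left _ _))
      have m1 : ENNReal.ofReal (min η η₂ * r ^ Module.finrank ℝ E)
          ≤ ENNReal.ofReal (η * r ^ Module.finrank ℝ E) := by
        apply ENNReal.ofReal_le_ofReal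
        gcongr
        exact min_le_left _ _
      have m2 : ENNReal.ofReal (min η η₂ * r ^ Module.finrank ℝ E)
          ≤ ENNReal.ofReal (η₂ * r ^ Module.finrank ℝ E) := by
        apply ENNReal.ofReal_le_ofReal
        gcongr
        exact min_le_right _ _
      refine ⟨b1.trans m1, Q, b2, b3.trans m1, fun τ hτ hτn hor => ?_⟩
      exact H₂ x hx r hr (hrδ.trans_le (min_le_right _ _)) Q (b3.trans m2) (co τ e)
        (continuousOn_co_of hτ he) (fun y hy => nda_of_nondeg hτn he hy) (hor e he))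
  refine ⟨σ, β, ⟨s1, s2, hHO.1 σ fun p => ?_⟩, s3, s4, fun τ hτ hτn hor e' he' y' hy' => ?_⟩
  · obtain ⟨e, he, y, hy, hp, Q, -, -, hQ⟩ := s6 () p
    exact ⟨e, he, y, hy, hp, Q, hQ rfl⟩
  obtain ⟨e, he, y, hy, hp, Q, hb', -, hQ⟩ := s6 () (e'.symm y')
  obtain ⟨b, hb, hbQ, hbj⟩ := hb' τ hτ hτn hor
  have j1 : JoinedIn (NDA E) (co σ e y) (co τ e y) :=
    (joinedIn_of_pos (Q := Q) (fun u => σ.alt _ _) hb.1 (hQ rfl) hbQ).trans hbj
  -- transfer to the chart `e'`
  have hyD' : y' ∈ trD e' e := ⟨hy', by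
    show e'.symm y' ∈ e.source
    rw [← hp]; exact e.map_target hy⟩
  have hty : tr e' e y' = y := by
    show e (e'.symm y') = y
    rw [← hp]; exact e.right_inv hy
  obtain ⟨-, -, hm, hinv, hco, -⟩ := hT e' he' e he
  have hyD : y ∈ trD e e' := by
    rw [← hty]; exact hm hyD'
  have hty' : tr e e' y = y' := by
    have := (hinv y' hyD').2
    rwa [hty] at this
  refine joinedIn_pullback j1 (F := fderiv ℝ (tr e' e) y') (G := fderiv ℝ (tr e e') y) ?_ ?_ ?_ ?_
  · intro u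
    have := fderiv_tr_inv hT he' he hyD' u
    rwa [hty] at this
  · intro u
    have := fderiv_tr_inv hT he he' hyD u
    rwa [hty'] at this
  · intro u w
    have := hco σ y' hyD' u w
    rw [hty] at this
    exact this
  · intro u w
    have := hco τ y' hyD' u w
    rw [hty] at this
    exact this

end Pool.Agent.Y685.SY
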