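import Mathlib
import Pool.Agent.Y685.SY.Ori
import Pool.Agent.Y455.SY.Moll
import Pool.Agent.Y839.SY.Conv
import Pool.Agent.Y297.SY.Trans
import Pool.Agent.Y614.SY.Ext0
import Pool.Agent.Y141.SY.Ext
import Pool.Agent.Y274.SY.PU
import Pool.Agent.Y500.SY.Low2
import Pool.Agent.Y564.SY.Comp2
import Pool.Agent.Y568.SY.Hold
import Pool.Agent.Y419.SY.Poin
import Pool.Agent.Y421.SY.Goodb
import Pool.Agent.Y70.SY.Equi
import Pool.Agent.Y514.SY.Hom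
import Pool.Agent.Y968.SY.Smear

/-!
# Project SY: the smoothing theorems
-/

set_option maxSynthPendingDepth 3

open scoped Manifold ContDiff Topology ENNReal
open MeasureTheory Set Metric Filter
open Pool.Agent.Y519.AS (TwoForm)

namespace Pool.Agent.Y685.SY

variable {E : Type} [NormedAddCommGroup E] [InnerProductSpace ℝ E] [FiniteDimensional ℝ E]
  [MeasurableSpace E] [BorelSpace E]
  {M : Type} [TopologicalSpace M] [ChartedSpace E M] [IsManifold 𝓘(ℝ, E) ∞ M]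

/-- The smoothing theorem for one form. -/
theorem smoothing [CompactSpace M] [T2Space M] (hm : 0 < Module.finrank ℝ E)
    {θ θ₀ : TwoForm E M} {α : Cov E M}
    (h₀ : θ₀.IsSmooth) (c₀ : θ₀.IsClosedForm) (hW : WeakD θ θ₀ α)
    (h : (SobolevFamily (fun _ : Unit => θ) ∧ UnifNondeg (fun _ : Unit => θ))
      ∨ MeanTame (fun _ : Unit => θ)) :
    ∃ (σ : TwoForm E M) (β : Cov E M), σ.IsSymplectic ∧ SmoothCov β ∧ IsD σ θ₀ β ∧
      ∀ τ : TwoForm E M, ContForm τ → τ.IsNondegenerate → SameOriAE θ τ → SameOri σ τ := by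
  have hV : MeanTame (fun _ : Unit => θ) := by
    rcases h with ⟨h1, h2⟩ | h
    · exact meanTame_of_sobolev (Pool.Agent.Y568.SY.t_HOLD (E := E))
        (Pool.Agent.Y568.SY.t_LMLI (E := E)) (Pool.Agent.Y419.SY.t_POIN E)
        (Pool.Agent.Y421.SY.t_GOODB (E := E)) (Pool.Agent.Y70.SY.t_EQUI (E := E)) hm h1 h2
    · exact h
  exact main1' (Pool.Agent.Y455.SY.t_MOLL E) (Pool.Agent.Y839.SY.t_CONV E)
    (Pool.Agent.Y564.SY.t_COMP2 E) (Pool.Agent.Y500.SY.t_LOW2 E)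
    (Pool.Agent.Y297.SY.t_TRANS E M) (Pool.Agent.Y614.SY.t_EXT0)
    (Pool.Agent.Y141.SY.t_EXT E M (Pool.Agent.Y297.SY.t_TRANS E M)) (Pool.Agent.Y274.SY.t_PU E M)
    (Pool.Agent.Y968.SY.t_SMEAR E M (Pool.Agent.Y297.SY.t_TRANS E M))
    (Pool.Agent.Y514.SY.t_HOM E M) h₀ c₀ hW hV

/-- The smoothing theorem for paths. -/
theorem smoothing_path [CompactSpace M] [T2Space M] (hm : 0 < Module.finrank ℝ E)
    {θ : unitInterval → TwoForm E M} {θ₀ : TwoForm E M} {α : Cov E M}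
    (h₀ : θ₀.IsSmooth) (c₀ : θ₀.IsClosedForm) (hW : WeakD (θ 1) θ₀ α) (hτ : ContForm (θ 0))
    (h : (SobolevFamily θ ∧ UnifNondeg θ) ∨ (ContL1 θ ∧ MeanTame θ)) :
    ∃ (σ : TwoForm E M) (β : Cov E M), σ.IsSymplectic ∧ SmoothCov β ∧ IsD σ θ₀ β ∧
      TwoForm.Homotopic (θ 0) σ := by
  have hV : ContL1 θ ∧ MeanTame θ := by
    rcases h with ⟨h1, h2⟩ | h
    · exact ⟨contL1_of_sobolev (Pool.Agent.Y568.SY.t_LMLI (E := E)) hm h1,
        meanTame_of_sobolev (Pool.Agent.Y568.SY.t_HOLD (E := E))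
        (Pool.Agent.Y568.SY.t_LMLI (E := E)) (Pool.Agent.Y419.SY.t_POIN E)
        (Pool.Agent.Y421.SY.t_GOODB (E := E)) (Pool.Agent.Y70.SY.t_EQUI (E := E)) hm h1 h2⟩
    · exact h
  exact main2 (Pool.Agent.Y455.SY.t_MOLL E) (Pool.Agent.Y839.SY.t_CONV E)
    (Pool.Agent.Y564.SY.t_COMP2 E) (Pool.Agent.Y500.SY.t_LOW2 E)
    (Pool.Agent.Y297.SY.t_TRANS E M) (Pool.Agent.Y614.SY.t_EXT0)
    (Pool.Agent.Y141.SY.t_EXT E M (Pool.Agent.Y297.SY.t_TRANS E M)) (Pool.Agent.Y274.SY.t_PU E M)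
    (Pool.Agent.Y968.SY.t_SMEAR E M (Pool.Agent.Y297.SY.t_TRANS E M))
    (Pool.Agent.Y514.SY.t_HOM E M) (Pool.Agent.Y547.SY.t_CTR (E := E)) h₀ c₀ hW hτ hV.1 hV.2

end Pool.Agent.Y685.SY
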