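import Mathlib
import Pool.Agent.Y685.SY.Core3
import Pool.Agent.Y685.SY.Final
import Pool.Agent.Y685.SY.ExtF
import Pool.Agent.Y232.SY.Curry
import Pool.Agent.Y722.SY.Ctrf

/-!
# Project SY: families of symplectic forms
-/

set_option maxSynthPendingDepth 3
set_option linter.unusedSectionVars false

open scoped Manifold ContDiff Topology ENNReal
open MeasureTheory Set Metric Filter
open Pool.Agent.Y519.AS (TwoForm)
open Pool.Agent.Helper831 (coordVec)

namespace Pool.Agent.Y685.SY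

section Defs

variable {E : Type} [NormedAddCommGroup E] [InnerProductSpace ℝ E] [FiniteDimensional ℝ E]
  {M : Type} [TopologicalSpace M] [ChartedSpace E M] {ι : Type} [TopologicalSpace ι]

/-- `t ↦ α t` is continuous with values in the continuous fields of linear forms: in the charts
the components are jointly continuous. -/
def ContFam1 (α : ι → Cov E M) : Prop :=
  ∀ e ∈ atlas E M, ∀ u : E,
    ContinuousOn (fun q : ι × E => co1 (α q.1) e q.2 u) (univ ×ˢ e.target)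

/-- `t ↦ θ t` is continuous on the set `B` with values in the continuous 2-forms: in the charts
the components are jointly continuous. -/
def ContFam2 (B : Set ι) (θ : ι → TwoForm E M) : Prop :=
  ∀ e ∈ atlas E M, ∀ u w : E,
    ContinuousOn (fun q : ι × E => (θ q.1).coeff e q.2 u w) (B ×ˢ e.target)

end Defs

variable {E : Type} [NormedAddCommGroup E] [InnerProductSpace ℝ E] [FiniteDimensional ℝ E]
  {M : Type} [TopologicalSpace M] [ChartedSpace E M] [IsManifold 𝓘(ℝ, E) ∞ M]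
  [MeasurableSpace E] [BorelSpace E]

theorem comb_coeff (s : ℝ) (σ τ : TwoForm E M) (e : OpenPartialHomeomorph M E) (y u w : E) :
    (comb s σ τ).coeff e y u w = (1 - s) * σ.coeff e y u w + s * τ.coeff e y u w := rfl

theorem main3 [CompactSpace M] [T2Space M] {ι : Type} [TopologicalSpace ι] [CompactSpace ι]
    {B : Set ι} (hB : IsClosed B) {θ : ι → TwoForm E M} {θ₀ : TwoForm E M} {α : ι → Cov E M}
    (h₀ : θ₀.IsSmooth) (c₀ : θ₀.IsClosedForm) (hW : ∀ t, WeakD (θ t) θ₀ (α t))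
    (hα : ContFam1 α) (hV : MeanTame θ) (hBc : ContFam2 B θ) :
    ∃ (σ : ι → TwoForm E M) (β : ι → Cov E M), SmoothFam2 σ ∧ SmoothFam1 β ∧
      (∀ t, (σ t).IsSymplectic ∧ IsD (σ t) θ₀ (β t)) ∧
      ∀ t ∈ B, ∀ s ∈ Icc (0 : ℝ) 1, (comb s (θ t) (σ t)).IsNondegenerate := by
  have hαc : ∀ e ∈ atlas E M,
      ContinuousOn (fun q : ι × E => co1 (α q.1) e q.2) (univ ×ˢ e.target) := by
    intro e he
    rw [continuousOn_clm_apply]
    exact hα e he
  obtain ⟨σ, β, s1, s2, s3, s4⟩ := core3 (Pool.Agent.Y455.SY.t_MOLL E)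
    (Pool.Agent.Y839.SY.t_CONV E) (Pool.Agent.Y564.SY.t_COMP2 E) (Pool.Agent.Y500.SY.t_LOW2 E)
    (Pool.Agent.Y297.SY.t_TRANS E M) (Pool.Agent.Y614.SY.t_EXT0)
    (t_EXTF (Pool.Agent.Y297.SY.t_TRANS E M))
    (Pool.Agent.Y274.SY.t_PU E M) (Pool.Agent.Y232.SY.t_CURRY E)
    (fun t e x Q => t ∈ B → ∀ u : E, u ≠ 0 → 0 < (θ t).coeff e x u (Q u))
    (θ := θ) h₀ c₀ hW hαc (by
      intro e he
      obtain ⟨a1, a2⟩ := hV e he
      refine ⟨a1, fun K hK hKc => ?_⟩
      obtain ⟨C, c, hc, H⟩ := a2 K hK hKc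
      haveI : CompactSpace B := isCompact_iff_compactSpace.1 hB.isCompact
      have hcB : ContinuousOn (fun q : B × E => co (θ q.1) e q.2) (univ ×ˢ e.target) := by
        rw [continuousOn_clm_apply]
        intro u
        rw [continuousOn_clm_apply]
        intro w
        exact (hBc e he u w).comp (f := fun q : B × E => ((q.1 : ι), q.2))
          (by fun_prop) (fun q hq => ⟨q.1.2, hq.2⟩)
      obtain ⟨η₂, hη₂, δ₂, hδ₂, H₂⟩ := Pool.Agent.Y722.SY.t_CTRF (E := E) B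
        (fun t => co (θ t) e) e.target K e.open_target hcB hK hKc C c hc
      refine ⟨C, c, hc, fun η hη => ?_⟩
      obtain ⟨δ, hδ, H'⟩ := H (min η η₂) (lt_min hη hη₂)
      refine ⟨min δ δ₂, lt_min hδ hδ₂, fun t x hx r hr hrδ => ?_⟩
      obtain ⟨b1, Q, b2, b3⟩ := H' t x hx r hr (hrδ.trans_le (min_le_left _ _))
      have m1 : ENNReal.ofReal (min η η₂ * r ^ Module.finrank ℝ E)
          ≤ ENNReal.ofReal (η * r ^ Module.finrank ℝ E) := by
        apply ENNReal.ofReal_le_ofReal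
        gcongr
        exact min_le_left _ _
      have m2 : ENNReal.ofReal (min η η₂ * r ^ Module.finrank ℝ E)
          ≤ ENNReal.ofReal (η₂ * r ^ Module.finrank ℝ E) := by
        apply ENNReal.ofReal_le_ofReal
        gcongr
        exact min_le_right _ _
      refine ⟨b1.trans m1, Q, b2, b3.trans m1, fun htB => ?_⟩
      exact H₂ ⟨t, htB⟩ x hx r hr (hrδ.trans_le (min_le_right _ _)) Q b2 (b3.trans m2))
  refine ⟨σ, β, s1, s2, fun t => ⟨⟨(s3 t).1, (s3 t).2.1, ?_⟩, (s3 t).2.2.2⟩, fun t ht s hs => ?_⟩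
  · refine (Pool.Agent.Y514.SY.t_HOM E M).1 (σ t) fun p => ?_
    obtain ⟨e, he, y, hy, hp, Q, -, hQ⟩ := s4 t p
    exact ⟨e, he, y, hy, hp, Q, hQ⟩
  · refine (Pool.Agent.Y514.SY.t_HOM E M).1 _ fun p => ?_
    obtain ⟨e, he, y, hy, hp, Q, hP, hQ⟩ := s4 t p
    refine ⟨e, he, y, hy, hp, Q, fun u hu => ?_⟩
    rw [comb_coeff]
    have a0 := hP ht u hu
    have a1 := hQ u hu
    rcases hs.1.lt_or_eq with h | h
    · have : 0 < s * (σ t).coeff e y u (Q u) := mul_pos h a1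
      have : 0 ≤ (1 - s) * (θ t).coeff e y u (Q u) := mul_nonneg (by linarith [hs.2]) a0.le
      linarith
    · rw [← h]; linarith

/-- The smoothing theorem for families. -/
theorem smoothing_family [CompactSpace M] [T2Space M] (hm : 0 < Module.finrank ℝ E)
    {ι : Type} [TopologicalSpace ι] [CompactSpace ι]
    {B : Set ι} (hB : IsClosed B) {θ : ι → TwoForm E M} {θ₀ : TwoForm E M} {α : ι → Cov E M}
    (h₀ : θ₀.IsSmooth) (c₀ : θ₀.IsClosedForm) (hW : ∀ t, WeakD (θ t) θ₀ (α t))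
    (hα : ContFam1 α) (h : (SobolevFamily θ ∧ UnifNondeg θ) ∨ MeanTame θ) (hBc : ContFam2 B θ) :
    ∃ (σ : ι → TwoForm E M) (β : ι → Cov E M), SmoothFam2 σ ∧ SmoothFam1 β ∧
      (∀ t, (σ t).IsSymplectic ∧ IsD (σ t) θ₀ (β t)) ∧
      ∀ t ∈ B, ∀ s ∈ Icc (0 : ℝ) 1, (comb s (θ t) (σ t)).IsNondegenerate := by
  have hV : MeanTame θ := by
    rcases h with ⟨h1, h2⟩ | h
    · exact meanTame_of_sobolev (Pool.Agent.Y568.SY.t_HOLD (E := E))
        (Pool.Agent.Y568.SY.t_LMLI (E := E)) (Pool.Agent.Y419.SY.t_POIN E)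
        (Pool.Agent.Y421.SY.t_GOODB (E := E)) (Pool.Agent.Y70.SY.t_EQUI (E := E)) hm h1 h2
    · exact h
  exact main3 hB h₀ c₀ hW hα hV hBc

end Pool.Agent.Y685.SY
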